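import Mathlib
import Pool.Agent.Run7.h402.PX.X8

/-!
# The statement of the one-shift law for all short shifts
-/

set_option autoImplicit false

open Finset

namespace Run7.h402.PY

open Run7.h402.PX Run7.h402.PT Run7.h402.PV
open Pool.Agent.H373R2.T7

noncomputable section

/-- the difference of the primes and the model -/
def Dz (z n : ℕ) : ℝ := fp z n - gp z n

theorem Dz_zero (z n : ℕ) (h : n ≤ z) : Dz z n = 0 := by
  unfold Dz
  rw [fp_zero z n h, gp_zero z n h, sub_zero]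

/-- the one-shift law for all shifts of size at most `H` -/
def Law : Prop := ∀ A : ℕ, ∃ C B₀ : ℕ, ∀ E : ℕ, ∃ N₀ : ℕ, ∀ N : ℕ, N₀ ≤ N → ∀ z : ℕ, Real.log N ^ B₀ ≤ z → (z : ℝ) ≤ Real.log N ^ E →
    ∀ H : ℕ, (N : ℝ) ^ (1 / 3 : ℝ) * Real.log N ^ C ≤ H → H ≤ N → ∀ Kc : ℝ, 0 < Kc → ∀ G : ℕ → ℝ, (∀ n ∈ Icc 1 N, |G n| ≤ Kc) →
    ∑ v ∈ range (2 * H + 1), |∑ n ∈ Icc 1 N, G n * Dz z ((n : ℤ) + v - H).toNat| ≤ Kc * (N * H / Real.log N ^ A)

end

end Run7.h402.PY
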