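import Mathlib
import Pool.Agent.Run7.h402.PX.X8

/-!
# Telescoping in mean square over boxes with different sides; correlations along a line
-/

set_option autoImplicit false

open Finset

namespace Run7.h402.PY

open Run7.h402.PX Run7.h402.PT Run7.h402.PV
open Pool.Agent.H807R2.Dav
open Pool.Agent.H373R2.T7

noncomputable section

/-- Cauchy and the expansion of the square, over product sets -/
theorem sq_sum_prod' {K : ℕ} (T : ℕ) (U : Fin K → ℕ) (c : ℕ → ℝ) (hc : ∀ t ∈ range T, |c t| ≤ 1) (R : Fin K → ℕ → ℕ → ℝ) :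
    ∑ u ∈ Fintype.piFinset (fun i : Fin K => range (U i)), |∑ t ∈ range T, c t * ∏ i, R i t (u i)| ≤
      √((∏ i, (U i : ℝ)) * ∑ t ∈ range T, ∑ t' ∈ range T, ∏ i, |∑ u ∈ range (U i), R i t u * R i t' u|) := by
  apply Real.le_sqrt_of_sq_le
  set Om := Fintype.piFinset (fun i : Fin K => range (U i)) with hOm
  have hcard : (Om.card : ℝ) = ∏ i, (U i : ℝ) := by
    rw [hOm, Fintype.card_piFinset]
    simp
  have h1 : (∑ u ∈ Om, |∑ t ∈ range T, c t * ∏ i, R i t (u i)|) ^ 2 ≤ Om.card * ∑ u ∈ Om, (|∑ t ∈ range T, c t * ∏ i, R i t (u i)|) ^ 2 :=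
    sq_sum_le_card_mul_sum_sq
  rw [hcard] at h1
  refine h1.trans ?_
  apply mul_le_mul_of_nonneg_left _ (prod_nonneg fun i _ => Nat.cast_nonneg _)
  have h2 : ∀ u ∈ Om, (|∑ t ∈ range T, c t * ∏ i, R i t (u i)|) ^ 2 =
      ∑ t ∈ range T, ∑ t' ∈ range T, c t * c t' * ∏ i, (R i t (u i) * R i t' (u i)) := by
    intro u _
    rw [sq_abs, pow_two, sum_mul_sum]
    apply sum_congr rfl
    intro t _
    apply sum_congr rfl
    intro t' _
    rw [prod_mul_distrib]
    ring
  rw [sum_congr rfl h2, sum_comm]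
  have h3 : ∀ t ∈ range T, ∑ u ∈ Om, ∑ t' ∈ range T, c t * c t' * ∏ i, (R i t (u i) * R i t' (u i)) =
      ∑ t' ∈ range T, c t * c t' * ∏ i, ∑ u ∈ range (U i), R i t u * R i t' u := by
    intro t _
    rw [sum_comm]
    apply sum_congr rfl
    intro t' _
    rw [← mul_sum]
    congr 1
    rw [hOm, prod_univ_sum]
  rw [sum_congr rfl h3]
  apply sum_le_sum
  intro t ht
  apply sum_le_sum
  intro t' ht'
  rw [← abs_prod]
  refine (le_abs_self _).trans ?_
  rw [abs_mul, abs_mul]
  have h4 : |c t| * |c t'| ≤ 1 := mul_le_one₀ (hc t ht) (abs_nonneg _) (hc t' ht')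
  exact mul_le_of_le_one_left (abs_nonneg _) h4

/-- telescoping in mean square -/
theorem tele_sq' {K : ℕ} (T : ℕ) (U : Fin K → ℕ) (c : ℕ → ℝ) (hc : ∀ t ∈ range T, |c t| ≤ 1) (P Q : Fin K → ℕ → ℕ → ℝ) (h : ℕ → ℕ → ℝ)
    (hh0 : ∀ t ∈ range T, ∀ t' ∈ range T, 0 ≤ h t t')
    (hP : ∀ i, ∀ t ∈ range T, ∀ t' ∈ range T, |∑ u ∈ range (U i), P i t u * P i t' u| ≤ U i * h t t')
    (hQ : ∀ i, ∀ t ∈ range T, ∀ t' ∈ range T, |∑ u ∈ range (U i), Q i t u * Q i t' u| ≤ U i * h t t')
    (E : ℝ) (hE0 : 0 ≤ E) (hE : ∀ j, ∑ t ∈ range T, ∑ t' ∈ range T,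
      |∑ u ∈ range (U j), (P j t u - Q j t u) * (P j t' u - Q j t' u)| * h t t' ^ (K - 1) ≤ U j * E) :
    ∑ u ∈ Fintype.piFinset (fun i : Fin K => range (U i)), |∑ t ∈ range T, c t * (∏ i, P i t (u i) - ∏ i, Q i t (u i))| ≤
      K * ((∏ i, (U i : ℝ)) * √E) := by
  set Om := Fintype.piFinset (fun i : Fin K => range (U i)) with hOm
  set R : Fin K → Fin K → ℕ → ℕ → ℝ := fun j i t u => if i < j then P i t u else if i = j then P i t u - Q i t u else Q i t u with hR
  have h1 : ∀ u ∈ Om, |∑ t ∈ range T, c t * (∏ i, P i t (u i) - ∏ i, Q i t (u i))| ≤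
      ∑ j, |∑ t ∈ range T, c t * ∏ i, R j i t (u i)| := by
    intro u _
    have h2 : ∑ t ∈ range T, c t * (∏ i, P i t (u i) - ∏ i, Q i t (u i)) = ∑ j, ∑ t ∈ range T, c t * ∏ i, R j i t (u i) := by
      rw [sum_comm]
      apply sum_congr rfl
      intro t _
      rw [telescope (fun i => P i t (u i)) (fun i => Q i t (u i)), mul_sum]
    rw [h2]
    exact abs_sum_le_sum_abs _ _
  refine (sum_le_sum h1).trans ?_
  rw [sum_comm]
  have hUp : 0 ≤ ∏ i, (U i : ℝ) := prod_nonneg fun i _ => Nat.cast_nonneg _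
  have h3 : ∀ j ∈ (univ : Finset (Fin K)), ∑ u ∈ Om, |∑ t ∈ range T, c t * ∏ i, R j i t (u i)| ≤ (∏ i, (U i : ℝ)) * √E := by
    intro j _
    refine (sq_sum_prod' T U c hc (R j)).trans ?_
    have e1 : (∏ i, (U i : ℝ)) * √E = √((∏ i, (U i : ℝ)) * ((∏ i, (U i : ℝ)) * E)) := by
      rw [← mul_assoc, Real.sqrt_mul (by positivity), Real.sqrt_mul_self hUp]
    rw [e1]
    apply Real.sqrt_le_sqrt
    apply mul_le_mul_of_nonneg_left _ hUp
    have hUe : ∏ i, (U i : ℝ) = (∏ i ∈ univ.erase j, (U i : ℝ)) * U j := (prod_erase_mul univ (fun i => (U i : ℝ)) (mem_univ j)).symm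
    have hUe0 : 0 ≤ ∏ i ∈ univ.erase j, (U i : ℝ) := prod_nonneg fun i _ => Nat.cast_nonneg _
    rw [hUe, mul_assoc]
    refine le_trans ?_ (mul_le_mul_of_nonneg_left (hE j) hUe0)
    rw [mul_sum]
    apply sum_le_sum
    intro t ht
    rw [mul_sum]
    apply sum_le_sum
    intro t' ht'
    rw [← mul_prod_erase univ (fun i => |∑ u ∈ range (U i), R j i t u * R j i t' u|) (mem_univ j)]
    have e2 : (∏ i ∈ univ.erase j, (U i : ℝ)) * (|∑ u ∈ range (U j), (P j t u - Q j t u) * (P j t' u - Q j t' u)| * h t t' ^ (K - 1)) =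
        |∑ u ∈ range (U j), (P j t u - Q j t u) * (P j t' u - Q j t' u)| * ((∏ i ∈ univ.erase j, (U i : ℝ)) * h t t' ^ (K - 1)) := by ring
    rw [e2]
    apply mul_le_mul
    · apply le_of_eq
      congr 1
      apply sum_congr rfl
      intro u _
      rw [hR]
      simp
    · have h4 : ∏ i ∈ univ.erase j, |∑ u ∈ range (U i), R j i t u * R j i t' u| ≤ ∏ i ∈ univ.erase j, ((U i : ℝ) * h t t') := by
        apply prod_le_prod (fun i _ => abs_nonneg _)
        intro i hi
        have hij : i ≠ j := (mem_erase.1 hi).1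
        rw [hR]
        simp only
        by_cases h5 : i < j
        · simp only [if_pos h5]
          exact hP i t ht t' ht'
        · simp only [if_neg h5, if_neg hij]
          exact hQ i t ht t' ht'
      rw [prod_mul_distrib, prod_const, card_erase_of_mem (mem_univ j), card_univ, Fintype.card_fin] at h4
      exact h4
    · exact prod_nonneg fun i _ => abs_nonneg _
    · exact abs_nonneg _
  refine (sum_le_sum h3).trans (le_of_eq ?_)
  rw [sum_const, card_univ, Fintype.card_fin, nsmul_eq_mul]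

/-- correlations along a line -/
theorem corr_line' (F : ℕ → ℝ) (hF : ∀ n, 0 ≤ F n) (h0 : F 0 = 0) (w T U S : ℕ) (M : ℝ) (hM : 0 ≤ M)
    (hPB : ∀ s0 δ : ℕ, 1 ≤ δ → s0 + U + δ ≤ S → ∑ n ∈ Icc 1 U, F (s0 + n) * F (s0 + n + δ) ≤ M * hh w δ ^ 2)
    (a q : ℤ) (ha : a ≠ 0) (hS : 2 * a.natAbs * T + q.natAbs + U ≤ S) (t t' : ℕ) (ht : t < T) (ht' : t' < T) (hne : t ≠ t') :
    |∑ u ∈ range U, F ((a * t + u + q).toNat) * F ((a * t' + u + q).toNat)| ≤ M * (hh w a.natAbs * hh w ((t' : ℤ) - t).natAbs) ^ 2 := by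
  rw [abs_of_nonneg (sum_nonneg fun u _ => mul_nonneg (hF _) (hF _))]
  -- the main case
  have main : ∀ t t' : ℕ, t < T → t' < T → 0 < a * ((t' : ℤ) - t) →
      ∑ u ∈ range U, F ((a * t + u + q).toNat) * F ((a * t' + u + q).toNat) ≤ M * (hh w a.natAbs * hh w ((t' : ℤ) - t).natAbs) ^ 2 := by
    intro t t' ht ht' hpos
    set Δ : ℕ := (a * ((t' : ℤ) - t)).natAbs with hΔ
    have hΔ' : (Δ : ℤ) = a * ((t' : ℤ) - t) := by
      rw [hΔ, Int.natCast_natAbs, abs_of_pos hpos]
    have hΔm : Δ = a.natAbs * ((t' : ℤ) - t).natAbs := by rw [hΔ, Int.natAbs_mul]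
    have htt : ((t' : ℤ) - t).natAbs ≤ T := by omega
    have hΔ1 : 1 ≤ Δ := by omega
    have e : ∀ u ∈ range U, F ((a * t + u + q).toNat) * F ((a * t' + u + q).toNat) =
        F (((a * t + q) + u).toNat) * F (((a * t + q) + u + Δ).toNat) := by
      intro u _
      have e1 : a * t + u + q = (a * t + q) + u := by ring
      have e2 : a * t' + u + q = (a * t + q) + u + Δ := by rw [hΔ']; ring
      rw [e1, e2]
    rw [sum_congr rfl e]
    refine (window F hF h0 (a * t + q) Δ U).trans ?_
    have hb1 : (a * t + q - 1).toNat ≤ a.natAbs * T + q.natAbs := by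
      have h1 : a * t ≤ (a.natAbs : ℤ) * T := by
        calc a * t ≤ |a| * t := mul_le_mul_of_nonneg_right (le_abs_self a) (by positivity)
          _ ≤ |a| * T := by
              apply mul_le_mul_of_nonneg_left _ (abs_nonneg a)
              exact_mod_cast ht.le
          _ = (a.natAbs : ℤ) * T := by rw [Int.natCast_natAbs]
      have h2 : q ≤ (q.natAbs : ℤ) := by rw [Int.natCast_natAbs]; exact le_abs_self q
      have h3 : ((a.natAbs * T + q.natAbs : ℕ) : ℤ) = (a.natAbs : ℤ) * T + q.natAbs := by push_cast; ring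
      omega
    have hb2 : Δ ≤ a.natAbs * T := by
      rw [hΔm]
      exact Nat.mul_le_mul_left _ htt
    have h1 := hPB ((a * t + q - 1).toNat) Δ hΔ1 (by
      have : 2 * a.natAbs * T = a.natAbs * T + a.natAbs * T := by ring
      omega)
    refine h1.trans ?_
    apply mul_le_mul_of_nonneg_left _ hM
    have h2 : hh w Δ ≤ hh w a.natAbs * hh w ((t' : ℤ) - t).natAbs := by
      rw [hΔm]
      apply hh_mul
      · exact Int.natAbs_ne_zero.2 ha
      · intro h
        rw [hΔm, h, mul_zero] at hΔ1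
        omega
    have h3 := hh_one w Δ
    exact pow_le_pow_left₀ (by linarith) h2 2
  rcases lt_trichotomy (a * ((t' : ℤ) - t)) 0 with h | h | h
  · have h1 := main t' t ht' ht (by
      have e : a * ((t : ℤ) - t') = -(a * ((t' : ℤ) - t)) := by ring
      rw [e]
      omega)
    have e : ((t : ℤ) - t').natAbs = ((t' : ℤ) - t).natAbs := by
      rw [← Int.natAbs_neg]
      congr 1
      ring
    rw [e] at h1
    refine le_trans (le_of_eq ?_) h1
    apply sum_congr rfl
    intro u _
    ring
  · exfalso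
    rcases mul_eq_zero.1 h with h1 | h1
    · exact ha h1
    · apply hne
      omega
  · exact main t t' ht ht' h

/-- the box norm from the one-shift law -/
theorem box' (T U S N W H z r : ℕ) (a q : ℤ) (ha : a ≠ 0) (hW : 1 ≤ W) (hr : r < W) (hz : W ≤ z)
    (hS : 2 * a.natAbs * T + q.natAbs + U ≤ S) (hN : W * S + r ≤ N) (hH : W * U ≤ H) (D : ℕ → ℝ) (hD0 : ∀ n ≤ z, D n = 0)
    (B0 : ℝ) (hB0 : 0 ≤ B0) (hDB : ∀ n ≤ N, |D n| ≤ B0) (Λ : ℝ)
    (hlaw : ∀ G : ℕ → ℝ, (∀ n ∈ Icc 1 N, |G n| ≤ B0) → ∑ v ∈ range (2 * H + 1), |∑ n ∈ Icc 1 N, G n * D ((n : ℤ) + v - H).toNat| ≤ Λ) :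
    ∑ t ∈ range T, ∑ t' ∈ range T, (∑ u ∈ range U, D (W * (a * t + u + q).toNat + r) * D (W * (a * t' + u + q).toNat + r)) ^ 2 ≤
      U * (T * B0 ^ 2 * Λ) := by
  classical
  set x : ℕ → ℕ → ℝ := fun t u => D (W * (a * t + u + q).toNat + r) with hx
  have hrange : ∀ t u : ℕ, t < T → u < U → (a * t + u + q).toNat ≤ S := by
    intro t u ht hu
    have h1 : a * t ≤ |a| * T := by
      calc a * t ≤ |a| * t := mul_le_mul_of_nonneg_right (le_abs_self _) (by positivity)
        _ ≤ |a| * T := by
            apply mul_le_mul_of_nonneg_left _ (abs_nonneg _)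
            exact_mod_cast ht.le
    have h2 : q ≤ |q| := le_abs_self _
    have h3 : ((2 * a.natAbs * T + q.natAbs + U : ℕ) : ℤ) ≤ S := by exact_mod_cast hS
    push_cast at h3
    have h4 : (0 : ℤ) ≤ |a| * T := by positivity
    have h5 : (u : ℤ) < U := by exact_mod_cast hu
    have h6 : a * t + u + q ≤ S := by linarith
    omega
  have hxN : ∀ t u : ℕ, t < T → u < U → W * (a * t + u + q).toNat + r ≤ N := by
    intro t u ht hu
    refine le_trans ?_ hN
    apply Nat.add_le_add_right
    exact Nat.mul_le_mul_left _ (hrange t u ht hu)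
  have hxB : ∀ t u : ℕ, t < T → u < U → |x t u| ≤ B0 := fun t u ht hu => hDB _ (hxN t u ht hu)
  -- exchange
  have hex : ∑ t ∈ range T, ∑ t' ∈ range T, (∑ u ∈ range U, x t u * x t' u) ^ 2 =
      ∑ u ∈ range U, ∑ u' ∈ range U, (∑ t ∈ range T, x t u * x t u') ^ 2 := by
    have h1 : ∀ t t' : ℕ, (∑ u ∈ range U, x t u * x t' u) ^ 2 = ∑ u ∈ range U, ∑ u' ∈ range U, (x t u * x t u') * (x t' u * x t' u') := by
      intro t t'
      rw [pow_two, sum_mul_sum]
      apply sum_congr rfl
      intro u _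
      apply sum_congr rfl
      intro u' _
      ring
    have h2 : ∀ u u' : ℕ, (∑ t ∈ range T, x t u * x t u') ^ 2 = ∑ t ∈ range T, ∑ t' ∈ range T, (x t u * x t u') * (x t' u * x t' u') := by
      intro u u'
      rw [pow_two, sum_mul_sum]
    simp only [h1, h2]
    rw [sum_congr rfl fun t _ => sum_comm]
    rw [sum_comm]
    apply sum_congr rfl
    intro u _
    rw [sum_congr rfl fun t _ => sum_comm]
    rw [sum_comm]
  rw [hex]
  -- one `u`
  have hu : ∀ u ∈ range U, ∑ u' ∈ range U, (∑ t ∈ range T, x t u * x t u') ^ 2 ≤ T * B0 ^ 2 * Λ := by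
    intro u hu
    rw [mem_range] at hu
    set I : Finset ℕ := (range T).filter (fun t : ℕ => 0 ≤ a * t + u + q ∧ z < W * (a * t + u + q).toNat + r) with hI
    set nn : ℕ → ℕ := fun t => W * (a * t + u + q).toNat + r with hnn
    set G : ℕ → ℝ := fun n => if n ∈ I.image nn then D n else 0 with hG
    have hGb : ∀ n ∈ Icc 1 N, |G n| ≤ B0 := by
      intro n hn
      rw [mem_Icc] at hn
      rw [hG]
      simp only
      split_ifs
      · exact hDB n hn.2
      · rw [abs_zero]
        exact hB0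
    have hinj : Set.InjOn nn (I : Finset ℕ) := by
      intro t ht t' ht' h
      rw [Finset.mem_coe, hI, mem_filter] at ht ht'
      rw [hnn] at h
      simp only at h
      have h1 : W * (a * t + u + q).toNat = W * (a * t' + u + q).toNat := by omega
      have h2 := Nat.eq_of_mul_eq_mul_left (by omega : 0 < W) h1
      have h3 : a * t + u + q = a * t' + u + q := by
        have e1 := ht.2.1
        have e2 := ht'.2.1
        omega
      have h4 : a * (t : ℤ) = a * t' := by linarith
      have h5 := mul_left_cancel₀ ha h4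
      exact_mod_cast h5
    have hval : ∀ u' ∈ range U, ∑ t ∈ range T, x t u * x t u' = ∑ n ∈ Icc 1 N, G n * D ((n : ℤ) + W * ((u' : ℤ) - u)).toNat := by
      intro u' hu'
      have h1 : ∑ n ∈ Icc 1 N, G n * D ((n : ℤ) + W * ((u' : ℤ) - u)).toNat =
          ∑ n ∈ I.image nn, D n * D ((n : ℤ) + W * ((u' : ℤ) - u)).toNat := by
        rw [← sum_filter_add_sum_filter_not (Icc 1 N) (fun n => n ∈ I.image nn)]
        have e1 : ∑ n ∈ (Icc 1 N).filter (fun n => ¬ n ∈ I.image nn), G n * D ((n : ℤ) + W * ((u' : ℤ) - u)).toNat = 0 := by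
          apply sum_eq_zero
          intro n hn
          rw [mem_filter] at hn
          rw [hG]
          simp only
          rw [if_neg hn.2, zero_mul]
        rw [e1, add_zero]
        have e2 : (Icc 1 N).filter (fun n => n ∈ I.image nn) = I.image nn := by
          ext n
          rw [mem_filter, mem_Icc]
          constructor
          · exact fun h => h.2
          · intro h
            refine ⟨?_, h⟩
            rw [mem_image] at h
            obtain ⟨t, ht, rfl⟩ := h
            rw [hI, mem_filter, mem_range] at ht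
            refine ⟨?_, hxN t u ht.1 hu⟩
            have := ht.2.2
            rw [hnn]
            simp only
            omega
        rw [e2]
        apply sum_congr rfl
        intro n hn
        rw [hG]
        simp only
        rw [if_pos hn]
      rw [h1, sum_image hinj, hI, sum_filter]
      apply sum_congr rfl
      intro t ht
      rw [mem_range] at ht
      split_ifs with h
      · rw [hx, hnn]
        simp only
        congr 1
        rw [← toNat_line D z W r hr hz hD0]
        congr 2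
        have e1 : ((W * (a * t + u + q).toNat + r : ℕ) : ℤ) = W * (a * t + u + q) + r := by
          push_cast
          rw [Int.toNat_of_nonneg h.1]
        rw [e1]
        ring
      · have h2 : x t u = 0 := by
          rw [hx]
          simp only
          apply hD0
          rw [not_and_or] at h
          rcases h with h | h
          · have : (a * t + u + q).toNat = 0 := by omega
            rw [this]
            omega
          · omega
        rw [h2, zero_mul]
    have hsq : ∀ u' ∈ range U, (∑ t ∈ range T, x t u * x t u') ^ 2 ≤ (T * B0 ^ 2) * |∑ n ∈ Icc 1 N, G n * D ((n : ℤ) + W * ((u' : ℤ) - u)).toNat| := by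
      intro u' hu'
      rw [← hval u' hu', ← sq_abs, pow_two]
      apply mul_le_mul_of_nonneg_right _ (abs_nonneg _)
      refine (abs_sum_le_sum_abs _ _).trans ?_
      have h1 : ∀ t ∈ range T, |x t u * x t u'| ≤ B0 ^ 2 := by
        intro t ht
        rw [mem_range] at ht hu'
        rw [abs_mul, pow_two]
        exact mul_le_mul (hxB t u ht hu) (hxB t u' ht hu') (abs_nonneg _) hB0
      refine (sum_le_sum h1).trans (le_of_eq ?_)
      rw [sum_const, card_range, nsmul_eq_mul]
    refine (sum_le_sum hsq).trans ?_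
    rw [← mul_sum]
    apply mul_le_mul_of_nonneg_left _ (by positivity)
    refine le_trans ?_ (hlaw G hGb)
    have hinj2 : Set.InjOn (fun u' : ℕ => (W * ((u' : ℤ) - u) + H).toNat) (range U : Finset ℕ) := by
      intro v hv v' hv' h
      rw [Finset.mem_coe, mem_range] at hv hv'
      simp only at h
      have b1 : (W : ℤ) * u ≤ H := by
        have : W * u ≤ W * U := Nat.mul_le_mul_left _ hu.le
        exact_mod_cast this.trans hH
      have b2 : (0 : ℤ) ≤ W * v := by positivity
      have b3 : (0 : ℤ) ≤ W * v' := by positivity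
      have e1 : (W : ℤ) * ((v : ℤ) - u) = W * v - W * u := by ring
      have e2 : (W : ℤ) * ((v' : ℤ) - u) = W * v' - W * u := by ring
      rw [e1, e2] at h
      have h1 : (W : ℤ) * v = W * v' := by omega
      have hW0 : (W : ℤ) ≠ 0 := by omega
      have h2 := mul_left_cancel₀ hW0 h1
      exact_mod_cast h2
    have hstep : ∑ u' ∈ range U, |∑ n ∈ Icc 1 N, G n * D ((n : ℤ) + W * ((u' : ℤ) - u)).toNat| =
        ∑ v ∈ (range U).image (fun u' : ℕ => (W * ((u' : ℤ) - u) + H).toNat), |∑ n ∈ Icc 1 N, G n * D ((n : ℤ) + v - H).toNat| := by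
      rw [sum_image hinj2]
      apply sum_congr rfl
      intro v hv
      rw [mem_range] at hv
      congr 1
      apply sum_congr rfl
      intro n _
      congr 2
      have b1 : (W : ℤ) * u ≤ H := by
        have : W * u ≤ W * U := Nat.mul_le_mul_left _ hu.le
        exact_mod_cast this.trans hH
      have b2 : (0 : ℤ) ≤ W * v := by positivity
      have e1 : (W : ℤ) * ((v : ℤ) - u) = W * v - W * u := by ring
      rw [Int.toNat_of_nonneg (by rw [e1]; omega)]
      congr 1
      ring
    rw [hstep]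
    apply sum_le_sum_of_subset_of_nonneg
    · intro v hv
      rw [mem_image] at hv
      obtain ⟨u', hu', rfl⟩ := hv
      rw [mem_range] at hu'
      rw [mem_range]
      have b2 : (W : ℤ) * u' ≤ H := by
        have : W * u' ≤ W * U := Nat.mul_le_mul_left _ hu'.le
        exact_mod_cast this.trans hH
      have b3 : (0 : ℤ) ≤ W * u := by positivity
      have e1 : (W : ℤ) * ((u' : ℤ) - u) = W * u' - W * u := by ring
      rw [e1]
      omega
    · intro v _ _
      exact abs_nonneg _
  refine (sum_le_sum hu).trans (le_of_eq ?_)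
  rw [sum_const, card_range, nsmul_eq_mul]

end

end Run7.h402.PY
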