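import Mathlib
import Pool.Agent.Run7.h402.PY.Y2

/-!
# Products along one residue class, boxes with different sides
-/

set_option autoImplicit false

open Finset

namespace Run7.h402.PY

open Run7.h402.PX Run7.h402.PT Run7.h402.PV
open Pool.Agent.H807R2.Dav
open Pool.Agent.H373R2.T7

noncomputable section

/-- the mean square telescoping along one residue class -/
theorem line_tuple' {K : ℕ} (T S w : ℕ) (U : Fin K → ℕ) (hw1 : 1 ≤ w) (hw : 8 * (K - 1) ≤ w) (a q : Fin K → ℤ) (ha : ∀ i, a i ≠ 0)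
    (hS : ∀ i, 2 * (a i).natAbs * T + (q i).natAbs + U i ≤ S) (f g : Fin K → ℕ → ℝ)
    (hf : ∀ i n, 0 ≤ f i n) (hg : ∀ i n, 0 ≤ g i n) (hf0 : ∀ i, f i 0 = 0) (hg0 : ∀ i, g i 0 = 0)
    (B0 : ℝ) (hB0 : 1 ≤ B0) (hfB : ∀ i, ∀ n ≤ S, f i n ≤ B0) (hgB : ∀ i, ∀ n ≤ S, g i n ≤ B0)
    (M hA ε : ℝ) (hM : 0 ≤ M) (hhA : 0 ≤ hA) (hε : 0 ≤ ε)
    (hPf : ∀ i, ∀ s0 δ : ℕ, 1 ≤ δ → s0 + U i + δ ≤ S → ∑ n ∈ Icc 1 (U i), f i (s0 + n) * f i (s0 + n + δ) ≤ M * U i * hh w δ ^ 2)
    (hPg : ∀ i, ∀ s0 δ : ℕ, 1 ≤ δ → s0 + U i + δ ≤ S → ∑ n ∈ Icc 1 (U i), g i (s0 + n) * g i (s0 + n + δ) ≤ M * U i * hh w δ ^ 2)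
    (hbox : ∀ j, ∑ t ∈ range T, ∑ t' ∈ range T, (∑ u ∈ range (U j), (f j ((a j * t + u + q j).toNat) - g j ((a j * t + u + q j).toNat)) *
      (f j ((a j * t' + u + q j).toNat) - g j ((a j * t' + u + q j).toNat))) ^ 2 ≤ ε * (T * U j) ^ 2)
    (hhh : ∀ i, hh w (a i).natAbs ≤ hA) (c : ℕ → ℝ) (hc : ∀ t ∈ range T, |c t| ≤ 1) :
    ∑ u ∈ Fintype.piFinset (fun i : Fin K => range (U i)),
      |∑ t ∈ range T, c t * (∏ i, f i ((a i * t + (u i : ℕ) + q i).toNat) - ∏ i, g i ((a i * t + (u i : ℕ) + q i).toNat))| ≤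
      K * ((∏ i, (U i : ℝ)) * √(T * (B0 ^ 2) ^ K + (M * hA ^ 2) ^ (K - 1) * (√ε * T * √(2 * T * (T * Real.exp 1))))) := by
  classical
  have hB00 : 0 < B0 := by linarith
  set P : Fin K → ℕ → ℕ → ℝ := fun i t u => f i ((a i * t + u + q i).toNat) with hP
  set Q : Fin K → ℕ → ℕ → ℝ := fun i t u => g i ((a i * t + u + q i).toNat) with hQ
  set H : ℕ → ℕ → ℝ := fun t t' => if t = t' then B0 ^ 2 else M * (hA * hh w ((t' : ℤ) - t).natAbs) ^ 2 with hH
  have hrange : ∀ i, ∀ t u : ℕ, t < T → u < U i → (a i * t + u + q i).toNat ≤ S := by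
    intro i t u ht hu
    have h1 : a i * t ≤ |a i| * T := by
      calc a i * t ≤ |a i| * t := mul_le_mul_of_nonneg_right (le_abs_self _) (by positivity)
        _ ≤ |a i| * T := by
            apply mul_le_mul_of_nonneg_left _ (abs_nonneg _)
            exact_mod_cast ht.le
    have h2 : q i ≤ |q i| := le_abs_self _
    have h3 : ((2 * (a i).natAbs * T + (q i).natAbs + U i : ℕ) : ℤ) ≤ S := by exact_mod_cast hS i
    push_cast at h3
    have h4 : (0 : ℤ) ≤ |a i| * T := by positivity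
    have h5 : (u : ℤ) < U i := by exact_mod_cast hu
    have h6 : a i * t + u + q i ≤ S := by linarith
    omega
  have hself : ∀ F : Fin K → ℕ → ℝ, (∀ i n, 0 ≤ F i n) → (∀ i, F i 0 = 0) → (∀ i, ∀ n ≤ S, F i n ≤ B0) →
      (∀ i, ∀ s0 δ : ℕ, 1 ≤ δ → s0 + U i + δ ≤ S → ∑ n ∈ Icc 1 (U i), F i (s0 + n) * F i (s0 + n + δ) ≤ M * U i * hh w δ ^ 2) →
      ∀ i, ∀ t ∈ range T, ∀ t' ∈ range T, |∑ u ∈ range (U i), F i ((a i * t + u + q i).toNat) * F i ((a i * t' + u + q i).toNat)| ≤ U i * H t t' := by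
    intro F hF hF0 hFB hFP i t ht t' ht'
    rw [mem_range] at ht ht'
    rw [hH]
    simp only
    split_ifs with h
    · subst h
      rw [abs_of_nonneg (sum_nonneg fun u _ => mul_nonneg (hF _ _) (hF _ _))]
      have h1 : ∀ u ∈ range (U i), F i ((a i * t + u + q i).toNat) * F i ((a i * t + u + q i).toNat) ≤ B0 ^ 2 := by
        intro u hu
        rw [mem_range] at hu
        rw [← pow_two]
        exact pow_le_pow_left₀ (hF _ _) (hFB i _ (hrange i t u ht hu)) 2
      refine (sum_le_sum h1).trans (le_of_eq ?_)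
      rw [sum_const, card_range, nsmul_eq_mul]
    · refine (corr_line' (F i) (hF i) (hF0 i) w T (U i) S (M * U i) (by positivity) (hFP i) (a i) (q i) (ha i) (hS i) t t' ht ht' h).trans ?_
      have e : (U i : ℝ) * (M * (hA * hh w ((t' : ℤ) - t).natAbs) ^ 2) = M * U i * (hA * hh w ((t' : ℤ) - t).natAbs) ^ 2 := by ring
      rw [e]
      apply mul_le_mul_of_nonneg_left _ (by positivity)
      have h1 := hh_one w (a i).natAbs
      have h2 := hh_one w ((t' : ℤ) - t).natAbs
      apply pow_le_pow_left₀ (by positivity)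
      exact mul_le_mul_of_nonneg_right (hhh i) (by positivity)
  have hE : ∀ j, ∑ t ∈ range T, ∑ t' ∈ range T,
      |∑ u ∈ range (U j), (P j t u - Q j t u) * (P j t' u - Q j t' u)| * H t t' ^ (K - 1) ≤
      U j * (T * (B0 ^ 2) ^ K + (M * hA ^ 2) ^ (K - 1) * (√ε * T * √(2 * T * (T * Real.exp 1)))) := by
    intro j
    set D : ℕ → ℝ := fun n => f j n - g j n with hD
    have hDB : ∀ n ≤ S, |D n| ≤ B0 := by
      intro n hn
      have h1 := hf j n
      have h2 := hg j n
      have h3 := hfB j n hn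
      have h4 := hgB j n hn
      rw [hD, abs_le]
      constructor <;> simp only <;> linarith
    set R : ℕ → ℕ → ℝ := fun t t' => ∑ u ∈ range (U j), D ((a j * t + u + q j).toNat) * D ((a j * t' + u + q j).toNat) with hR
    have e0 : ∀ t t', ∑ u ∈ range (U j), (P j t u - Q j t u) * (P j t' u - Q j t' u) = R t t' := fun t t' => rfl
    simp only [e0]
    have hK : 0 < K := j.pos
    have hsplit : ∀ t ∈ range T, ∀ t' ∈ range T, |R t t'| * H t t' ^ (K - 1) ≤
        (if t = t' then U j * (B0 ^ 2) ^ K else 0) + (M * hA ^ 2) ^ (K - 1) * (|R t t'| * (if t = t' then 0 else hh w ((t' : ℤ) - t).natAbs ^ (2 * (K - 1)))) := by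
      intro t ht t' ht'
      rw [mem_range] at ht ht'
      rw [hH]
      simp only
      split_ifs with h
      · subst h
        rw [mul_zero, mul_zero, add_zero]
        have h1 : |R t t| ≤ U j * B0 ^ 2 := by
          rw [hR]
          simp only
          refine (abs_sum_le_sum_abs _ _).trans ?_
          have h1 : ∀ u ∈ range (U j), |D ((a j * t + u + q j).toNat) * D ((a j * t + u + q j).toNat)| ≤ B0 ^ 2 := by
            intro u hu
            rw [mem_range] at hu
            rw [abs_mul, ← pow_two]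
            exact pow_le_pow_left₀ (abs_nonneg _) (hDB _ (hrange j t u ht hu)) 2
          refine (sum_le_sum h1).trans (le_of_eq ?_)
          rw [sum_const, card_range, nsmul_eq_mul]
        calc |R t t| * (B0 ^ 2) ^ (K - 1) ≤ (U j * B0 ^ 2) * (B0 ^ 2) ^ (K - 1) := by gcongr
          _ = U j * (B0 ^ 2) ^ K := by
              rw [mul_assoc, ← pow_succ', Nat.sub_add_cancel hK]
      · rw [zero_add]
        apply le_of_eq
        rw [pow_mul]
        calc |R t t'| * (M * (hA * hh w ((t' : ℤ) - t).natAbs) ^ 2) ^ (K - 1) =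
            |R t t'| * ((M * hA ^ 2) * hh w ((t' : ℤ) - t).natAbs ^ 2) ^ (K - 1) := by ring
          _ = _ := by rw [mul_pow]; ring
    refine (sum_le_sum fun t ht => sum_le_sum fun t' ht' => hsplit t ht t' ht').trans ?_
    have e1 : ∑ t ∈ range T, ∑ t' ∈ range T, ((if t = t' then U j * (B0 ^ 2) ^ K else 0) +
        (M * hA ^ 2) ^ (K - 1) * (|R t t'| * (if t = t' then 0 else hh w ((t' : ℤ) - t).natAbs ^ (2 * (K - 1))))) =
        U j * (T * (B0 ^ 2) ^ K) + (M * hA ^ 2) ^ (K - 1) *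
          ∑ t ∈ range T, ∑ t' ∈ range T, |R t t'| * (if t = t' then 0 else hh w ((t' : ℤ) - t).natAbs ^ (2 * (K - 1))) := by
      simp only [sum_add_distrib, ← mul_sum]
      congr 1
      have : ∀ t ∈ range T, ∑ t' ∈ range T, (if t = t' then (U j : ℝ) * (B0 ^ 2) ^ K else 0) = U j * (B0 ^ 2) ^ K := by
        intro t ht
        rw [sum_ite_eq, if_pos ht]
      rw [sum_congr rfl this, sum_const, card_range, nsmul_eq_mul]
      ring
    rw [e1, mul_add]
    apply add_le_add le_rfl
    have e2 : (U j : ℝ) * ((M * hA ^ 2) ^ (K - 1) * (√ε * T * √(2 * T * (T * Real.exp 1)))) =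
        (M * hA ^ 2) ^ (K - 1) * ((√ε * (T * U j)) * √(2 * T * (T * Real.exp 1))) := by ring
    rw [e2]
    apply mul_le_mul_of_nonneg_left _ (by positivity)
    rw [← sum_product' (f := fun t t' : ℕ => |R t t'| * (if t = t' then 0 else hh w ((t' : ℤ) - t).natAbs ^ (2 * (K - 1))))]
    refine (Real.sum_mul_le_sqrt_mul_sqrt (range T ×ˢ range T) (fun x => |R x.1 x.2|)
      (fun x => if x.1 = x.2 then 0 else hh w ((x.2 : ℤ) - x.1).natAbs ^ (2 * (K - 1)))).trans ?_
    apply mul_le_mul _ _ (Real.sqrt_nonneg _) (by positivity)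
    · have e3 : √ε * (T * U j) = √(ε * (T * U j) ^ 2) := by
        rw [Real.sqrt_mul hε, Real.sqrt_sq (by positivity)]
      rw [e3]
      apply Real.sqrt_le_sqrt
      refine le_trans (le_of_eq ?_) (hbox j)
      rw [sum_product (f := fun x : ℕ × ℕ => |R x.1 x.2| ^ 2)]
      apply sum_congr rfl
      intro t _
      apply sum_congr rfl
      intro t' _
      simp only
      rw [sq_abs]
    · apply Real.sqrt_le_sqrt
      rw [sum_product (f := fun x : ℕ × ℕ => (if x.1 = x.2 then 0 else hh w ((x.2 : ℤ) - x.1).natAbs ^ (2 * (K - 1))) ^ 2)]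
      have e2 : ∀ t ∈ range T, ∀ t' ∈ range T, (if t = t' then 0 else hh w ((t' : ℤ) - t).natAbs ^ (2 * (K - 1))) ^ 2 =
          if t = t' then 0 else (fun d => hh w d ^ (4 * (K - 1))) ((t' : ℤ) - t).natAbs := by
        intro t _ t' _
        simp only
        split_ifs
        · norm_num
        · rw [← pow_mul]
          congr 1
          ring
      rw [sum_congr rfl fun t ht => sum_congr rfl fun t' ht' => e2 t ht t' ht']
      refine (diff_sum (fun d => hh w d ^ (4 * (K - 1))) (fun d => by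
        have := hh_one w d
        positivity) T).trans ?_
      apply mul_le_mul_of_nonneg_left _ (by positivity)
      exact hh_moment w (4 * (K - 1)) T (by omega) hw1
  refine tele_sq' T U c hc P Q H ?_ (hself f hf hf0 hfB hPf) (hself g hg hg0 hgB hPg) _ (by positivity) hE
  intro t _ t' _
  rw [hH]
  simp only
  split_ifs <;> positivity

/-- the final form of the bound for one residue class -/
theorem line_final' {K : ℕ} (T : ℕ) (hT : 1 ≤ T) (B0 M' hA ε : ℝ) (hB0 : 1 ≤ B0) (hM : 0 ≤ M') (hhA : 0 ≤ hA) (hε : 0 ≤ ε) :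
    √(T * (B0 ^ 2) ^ K + (M' * hA ^ 2) ^ (K - 1) * (√ε * T * √(2 * T * (T * Real.exp 1)))) ≤
      T * (B0 ^ K / √(T : ℝ) + √(M' ^ (K - 1)) * (hA ^ (K - 1) * √(√(16 * ε)))) := by
  have hTr : (1 : ℝ) ≤ T := by exact_mod_cast hT
  have hT0 : (0 : ℝ) < T := by linarith
  have hadd : ∀ x y : ℝ, 0 ≤ x → 0 ≤ y → √(x + y) ≤ √x + √y := by
    intro x y hx hy
    rw [Real.sqrt_le_iff]
    refine ⟨by positivity, ?_⟩
    have h1 := Real.sq_sqrt hx
    have h2 := Real.sq_sqrt hy
    nlinarith [Real.sqrt_nonneg x, Real.sqrt_nonneg y, mul_nonneg (Real.sqrt_nonneg x) (Real.sqrt_nonneg y)]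
  refine (hadd _ _ (by positivity) (by positivity)).trans ?_
  rw [mul_add]
  apply add_le_add
  · apply le_of_eq
    rw [Real.sqrt_eq_iff_mul_self_eq (by positivity) (by positivity)]
    have h1 : √(T : ℝ) * √(T : ℝ) = T := Real.mul_self_sqrt hT0.le
    have h2 : ((T : ℝ) * (B0 ^ K / √(T : ℝ))) * ((T : ℝ) * (B0 ^ K / √(T : ℝ))) =
        (T : ℝ) * T * (B0 ^ K * B0 ^ K) / (√(T : ℝ) * √(T : ℝ)) := by
      field_simp
    rw [h2, h1, ← pow_mul]
    field_simp
    ring
  · have h1 : √ε * T * √(2 * T * (T * Real.exp 1)) ≤ T ^ 2 * √(16 * ε) := by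
      have e1 : √(2 * T * (T * Real.exp 1)) ≤ T * 4 := by
        rw [Real.sqrt_le_left (by positivity)]
        have he : Real.exp 1 ≤ 4 := by
          have := Real.exp_one_lt_d9
          linarith
        calc 2 * (T : ℝ) * (T * Real.exp 1) = (T : ℝ) ^ 2 * (2 * Real.exp 1) := by ring
          _ ≤ (T : ℝ) ^ 2 * 16 := by
              apply mul_le_mul_of_nonneg_left _ (by positivity)
              linarith
          _ = _ := by ring
      have e2 : √(16 * ε) = 4 * √ε := by
        rw [Real.sqrt_mul (by norm_num)]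
        congr 1
        rw [show (16 : ℝ) = 4 ^ 2 by norm_num, Real.sqrt_sq (by norm_num)]
      rw [e2]
      calc √ε * T * √(2 * T * (T * Real.exp 1)) ≤ √ε * T * (T * 4) := by gcongr
        _ = _ := by ring
    have hstep : (M' * hA ^ 2) ^ (K - 1) * (√ε * T * √(2 * T * (T * Real.exp 1))) ≤
        (T : ℝ) ^ 2 * (M' ^ (K - 1) * ((hA ^ (K - 1)) ^ 2 * √(16 * ε))) := by
      calc (M' * hA ^ 2) ^ (K - 1) * (√ε * T * √(2 * T * (T * Real.exp 1))) ≤ (M' * hA ^ 2) ^ (K - 1) * (T ^ 2 * √(16 * ε)) := by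
            gcongr
        _ = _ := by
            rw [mul_pow]
            ring
    refine (Real.sqrt_le_sqrt hstep).trans (le_of_eq ?_)
    rw [Real.sqrt_mul (by positivity), Real.sqrt_sq (by positivity)]
    congr 1
    rw [Real.sqrt_mul (by positivity), Real.sqrt_mul (by positivity), Real.sqrt_sq (by positivity)]

theorem pi_split' {K : ℕ} (W : ℕ) (U : Fin K → ℕ) (hW : 1 ≤ W) (G : (Fin K → ℕ) → ℝ) :
    ∑ m ∈ Fintype.piFinset (fun i : Fin K => range (W * U i)), G m =
      ∑ c ∈ Fintype.piFinset (fun _ : Fin K => range W), ∑ u ∈ Fintype.piFinset (fun i : Fin K => range (U i)), G (fun i => W * u i + c i) := by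
  rw [← sum_product' (f := fun c u : Fin K → ℕ => G (fun i => W * u i + c i))]
  symm
  apply sum_nbij' (fun x : (Fin K → ℕ) × (Fin K → ℕ) => fun i => W * x.2 i + x.1 i) (fun m => (fun i => m i % W, fun i => m i / W))
  · intro x hx
    rw [mem_product, Fintype.mem_piFinset, Fintype.mem_piFinset] at hx
    rw [Fintype.mem_piFinset]
    intro i
    have h1 := mem_range.1 (hx.1 i)
    have h2 := mem_range.1 (hx.2 i)
    rw [mem_range]
    calc W * x.2 i + x.1 i < W * x.2 i + W := by omega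
      _ = W * (x.2 i + 1) := by ring
      _ ≤ W * U i := Nat.mul_le_mul_left _ h2
  · intro m hm
    rw [Fintype.mem_piFinset] at hm
    rw [mem_product, Fintype.mem_piFinset, Fintype.mem_piFinset]
    refine ⟨fun i => mem_range.2 (Nat.mod_lt _ hW), fun i => mem_range.2 ?_⟩
    exact Nat.div_lt_of_lt_mul (mem_range.1 (hm i))
  · intro x hx
    rw [mem_product, Fintype.mem_piFinset, Fintype.mem_piFinset] at hx
    refine Prod.ext ?_ ?_
    · funext i
      have h1 := mem_range.1 (hx.1 i)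
      simp only
      rw [Nat.mul_add_mod, Nat.mod_eq_of_lt h1]
    · funext i
      have h1 := mem_range.1 (hx.1 i)
      simp only
      rw [Nat.mul_add_div hW, Nat.div_eq_of_lt h1, add_zero]
  · intro m _
    funext i
    exact Nat.div_add_mod _ _
  · intro x _
    rfl

/-- the sum over the residue classes -/
theorem residue_sum' {K : ℕ} (W T w z : ℕ) (U : Fin K → ℕ) (hWw : W = Wm w) (hwz : w ≤ z) (hzW : W ≤ z) (a b : Fin K → ℤ) (c : ℕ → ℝ)
    (hc : ∀ n, |c n| ≤ 1) (Bd : ℝ)
    (hline : ∀ (q : Fin K → ℤ) (r : Fin K → ℕ) (c' : ℕ → ℝ), (∀ i, r i < W) → (∀ i, Nat.Coprime W (r i)) →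
      (∀ i, (q i).natAbs ≤ (a i).natAbs + (b i).natAbs + 1) → (∀ n, |c' n| ≤ 1) →
      ∑ u ∈ Fintype.piFinset (fun i : Fin K => range (U i)), |∑ t ∈ range T, c' t *
        (∏ i, fp z (W * (a i * t + (u i : ℕ) + q i).toNat + r i) - ∏ i, gp z (W * (a i * t + (u i : ℕ) + q i).toNat + r i))| ≤ Bd) :
    ∑ m ∈ Fintype.piFinset (fun i : Fin K => range (W * U i)), |∑ n ∈ range (W * T), c n *
        (∏ i, fp z ((a i * n + b i + (m i : ℕ)).toNat) - ∏ i, gp z ((a i * n + b i + (m i : ℕ)).toNat))| ≤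
      W * (Nat.totient W : ℝ) ^ K * Bd := by
  classical
  have hW : 1 ≤ W := by rw [hWw]; exact Wm_pos w
  have hW0 : (0 : ℤ) < W := by exact_mod_cast hW
  rw [pi_split' W U hW]
  have h1 : ∀ cc ∈ Fintype.piFinset (fun _ : Fin K => range W), ∑ u ∈ Fintype.piFinset (fun i : Fin K => range (U i)),
      |∑ n ∈ range (W * T), c n * (∏ i, fp z ((a i * n + b i + ((W * u i + cc i : ℕ) : ℤ)).toNat) - ∏ i, gp z ((a i * n + b i + ((W * u i + cc i : ℕ) : ℤ)).toNat))| ≤
      ∑ d ∈ range W, Bd * ∏ i, (if Nat.Coprime W (((a i * d + b i) + (cc i : ℕ)) % W).toNat then (1 : ℝ) else 0) := by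
    intro cc hcc
    rw [Fintype.mem_piFinset] at hcc
    have h2 : ∀ u ∈ Fintype.piFinset (fun i : Fin K => range (U i)),
        |∑ n ∈ range (W * T), c n * (∏ i, fp z ((a i * n + b i + ((W * u i + cc i : ℕ) : ℤ)).toNat) - ∏ i, gp z ((a i * n + b i + ((W * u i + cc i : ℕ) : ℤ)).toNat))| ≤
        ∑ d ∈ range W, |∑ t ∈ range T, c (W * t + d) * (∏ i, fp z ((a i * ((W * t + d : ℕ) : ℤ) + b i + ((W * u i + cc i : ℕ) : ℤ)).toNat) -
          ∏ i, gp z ((a i * ((W * t + d : ℕ) : ℤ) + b i + ((W * u i + cc i : ℕ) : ℤ)).toNat))| := by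
      intro u _
      rw [range_split W T hW]
      exact abs_sum_le_sum_abs _ _
    refine (sum_le_sum h2).trans ?_
    rw [sum_comm]
    apply sum_le_sum
    intro d hd
    rw [mem_range] at hd
    set r : Fin K → ℕ := fun i => (((a i * d + b i) + (cc i : ℕ)) % W).toNat with hr
    set q : Fin K → ℤ := fun i => ((a i * d + b i) + (cc i : ℕ)) / W with hq
    have hr1 : ∀ i, r i < W := by
      intro i
      have h1 := Int.emod_nonneg ((a i * d + b i) + (cc i : ℕ)) hW0.ne'
      have h2 := Int.emod_lt_of_pos ((a i * d + b i) + (cc i : ℕ)) hW0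
      rw [hr]
      simp only
      omega
    have hrq : ∀ i, (a i * d + b i) + (cc i : ℕ) = W * q i + r i := by
      intro i
      have h1 := Int.emod_nonneg ((a i * d + b i) + (cc i : ℕ)) hW0.ne'
      rw [hr, hq]
      simp only
      rw [Int.toNat_of_nonneg h1]
      exact (Int.mul_ediv_add_emod _ _).symm
    have hval : ∀ F : ℕ → ℝ, (∀ n ≤ z, F n = 0) → ∀ (i : Fin K) (t u : ℕ), F ((a i * ((W * t + d : ℕ) : ℤ) + b i + ((W * u + cc i : ℕ) : ℤ)).toNat) =
        F (W * (a i * t + u + q i).toNat + r i) := by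
      intro F hF i t u
      rw [← toNat_line F z W (r i) (hr1 i) hzW hF]
      congr 2
      have h1 := hrq i
      push_cast
      linear_combination h1
    have e1 : ∀ u ∈ Fintype.piFinset (fun i : Fin K => range (U i)), |∑ t ∈ range T, c (W * t + d) * (∏ i, fp z ((a i * ((W * t + d : ℕ) : ℤ) + b i + ((W * u i + cc i : ℕ) : ℤ)).toNat) -
          ∏ i, gp z ((a i * ((W * t + d : ℕ) : ℤ) + b i + ((W * u i + cc i : ℕ) : ℤ)).toNat))| =
        |∑ t ∈ range T, c (W * t + d) *
        (∏ i, fp z (W * (a i * t + (u i : ℕ) + q i).toNat + r i) - ∏ i, gp z (W * (a i * t + (u i : ℕ) + q i).toNat + r i))| := by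
      intro u _
      congr 1
      apply sum_congr rfl
      intro t _
      rw [prod_congr rfl fun i _ => hval (fp z) (fp_zero z) i t (u i), prod_congr rfl fun i _ => hval (gp z) (gp_zero z) i t (u i)]
    rw [sum_congr rfl e1]
    by_cases hcop : ∀ i, Nat.Coprime W (r i)
    · have e2 : ∏ i, (if Nat.Coprime W (((a i * d + b i) + (cc i : ℕ)) % W).toNat then (1 : ℝ) else 0) = 1 := by
        apply prod_eq_one
        intro i _
        rw [if_pos (hcop i)]
      rw [e2, mul_one]
      apply hline q r (fun t => c (W * t + d)) hr1 hcop _ (fun n => hc _)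
      intro i
      have h3 := hrq i
      have h4 := mem_range.1 (hcc i)
      have h5 : |a i * d| ≤ |a i| * (W - 1) := by
        rw [abs_mul]
        apply mul_le_mul_of_nonneg_left _ (abs_nonneg _)
        rw [abs_of_nonneg (by positivity)]
        omega
      have h6 : |q i| ≤ |a i| + |b i| + 1 := by
        have h7 : (W : ℤ) * |q i| ≤ W * (|a i| + |b i| + 1) := by
          have h8 : |(W : ℤ) * q i| = W * |q i| := by rw [abs_mul, abs_of_pos hW0]
          rw [← h8]
          have h9 : (W : ℤ) * q i = a i * d + (b i + ((cc i : ℤ) - r i)) := by linarith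
          rw [h9]
          refine (abs_add_le _ _).trans ?_
          have h10 : |(cc i : ℤ) - r i| ≤ W := by
            have := hr1 i
            rw [abs_le]
            constructor <;> omega
          have h12 := abs_add_le (b i) ((cc i : ℤ) - r i)
          have h11 : |a i| * (W - 1) ≤ |a i| * W := by
            apply mul_le_mul_of_nonneg_left _ (abs_nonneg _)
            omega
          have h13 : |b i| ≤ |b i| * W := le_mul_of_one_le_right (abs_nonneg _) hW0
          linarith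
        exact le_of_mul_le_mul_left h7 hW0
      have h7 : (|q i|).natAbs = (q i).natAbs := Int.natAbs_abs _
      have h8 : (|a i|).natAbs = (a i).natAbs := Int.natAbs_abs _
      have h14 : (|b i|).natAbs = (b i).natAbs := Int.natAbs_abs _
      have h9 := abs_nonneg (q i)
      have h10 := abs_nonneg (a i)
      have h15 := abs_nonneg (b i)
      omega
    · push Not at hcop
      obtain ⟨i, hi⟩ := hcop
      have e2 : ∏ i, (if Nat.Coprime W (((a i * d + b i) + (cc i : ℕ)) % W).toNat then (1 : ℝ) else 0) = 0 :=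
        prod_eq_zero (mem_univ i) (if_neg hi)
      rw [e2, mul_zero]
      apply le_of_eq
      apply sum_eq_zero
      intro u _
      rw [abs_eq_zero]
      apply sum_eq_zero
      intro t _
      have hnc : ¬ Nat.Coprime (Wm w) (W * (a i * t + (u i : ℕ) + q i).toNat + r i) := by
        rw [hWw] at hi ⊢
        rwa [Nat.coprime_mul_left_add_right]
      rw [prod_eq_zero (mem_univ i) (fp_cop w z _ hwz hnc), prod_eq_zero (mem_univ i) (gp_cop w z _ hwz hnc), sub_zero, mul_zero]
  refine (sum_le_sum h1).trans ?_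
  rw [sum_comm]
  have h2 : ∀ d ∈ range W, ∑ cc ∈ Fintype.piFinset (fun _ : Fin K => range W),
      Bd * ∏ i, (if Nat.Coprime W (((a i * d + b i) + (cc i : ℕ)) % W).toNat then (1 : ℝ) else 0) = (Nat.totient W : ℝ) ^ K * Bd := by
    intro d _
    rw [← mul_sum, mul_comm]
    congr 1
    rw [← prod_univ_sum (fun _ : Fin K => range W) (fun i c => if Nat.Coprime W (((a i * d + b i) + (c : ℕ)) % W).toNat then (1 : ℝ) else 0)]
    rw [prod_congr rfl fun i _ => shift_totient W hW (a i * d + b i), prod_const, card_univ, Fintype.card_fin]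
  rw [sum_congr rfl h2, sum_const, card_range, nsmul_eq_mul, mul_assoc]

end

end Run7.h402.PY
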