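import Mathlib
import Pool.Agent.Run7.h402.PY.Y0
import Pool.Agent.Run7.h402.PY.Y3

/-!
# The comparison with the model on average over short boxes
-/

set_option autoImplicit false

open Finset

namespace Run7.h402.PY

open Run7.h402.PX Run7.h402.PT Run7.h402.PV
open Pool.Agent.H807R2.Dav
open Pool.Agent.H373R2.T7
open Pool.Agent.N475.SP (dom)

noncomputable section

/-- further analytic conditions -/
structure Cond2 (C R C1 : ℕ) (L : ℝ) : Prop where
  m1 : 21 * L ^ (2 * R + C) ≤ Real.exp L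
  m2 : 2 ^ C1 ≤ L
  m3 : 8 * L ^ 2 ≤ Real.exp (L / 8)
  m4 : 2 * L ^ (2 * R + 1) ≤ Real.exp (L / 4)

theorem cond2_ev (C R C1 : ℕ) : ∃ L0 : ℝ, ∀ L : ℝ, L0 ≤ L → Cond2 C R C1 L := by
  obtain ⟨a1, h1⟩ := dom 21 1 (2 * R + C) one_pos
  obtain ⟨a3, h3⟩ := dom 8 (1 / 8) 2 (by norm_num)
  obtain ⟨a4, h4⟩ := dom 2 (1 / 4) (2 * R + 1) (by norm_num)
  refine ⟨max (max a1 a3) (max a4 (2 ^ C1)), fun L hL => ?_⟩
  have g1 : a1 ≤ L := le_trans (le_trans (le_max_left _ _) (le_max_left _ _)) hL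
  have g3 : a3 ≤ L := le_trans (le_trans (le_max_right _ _) (le_max_left _ _)) hL
  have g4 : a4 ≤ L := le_trans (le_trans (le_max_left _ _) (le_max_right _ _)) hL
  have g2 : (2 : ℝ) ^ C1 ≤ L := le_trans (le_trans (le_max_right _ _) (le_max_right _ _)) hL
  refine ⟨?_, g2, ?_, ?_⟩
  · have := h1 L g1
    rwa [one_mul] at this
  · have := h3 L g3
    rwa [show 1 / 8 * L = L / 8 by ring] at this
  · have := h4 L g4
    rwa [show 1 / 4 * L = L / 4 by ring] at this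

/-- the error terms of the fundamental lemma -/
theorem pairg_part' {B C v R E U Bu C1 : ℕ} {L : ℝ} (cd : Cond B C v R E U Bu L) (cd2 : Cond2 C R C1 L) (T z : ℕ) (hT : Real.exp (L / 4) ≤ T)
    (hz1 : 1 ≤ z) (hz : (z : ℝ) ≤ L ^ E) (hVz : (Vz z)⁻¹ ≤ L) :
    (Vz z)⁻¹ ^ 2 * ((((z : ℝ) + 1) * (2 : ℕ)) ^ ⌈√L⌉₊ + 2 * T * Real.exp (3 * ((2 : ℕ) * (1 + Real.log z)) - ⌈√L⌉₊)) ≤ T := by
  have hL1 := cd.l1
  have hL3 := cd.l0
  have hL0 : 0 < L := by linarith
  have hLe : Real.exp (Real.log L) = L := Real.exp_log hL0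
  have hz0 : (0 : ℝ) < z := by exact_mod_cast hz1
  have hV0 : 0 ≤ (Vz z)⁻¹ := inv_nonneg.2 (Vz_pos z).le
  have hV2 : (Vz z)⁻¹ ^ 2 ≤ L ^ 2 := pow_le_pow_left₀ hV0 hVz 2
  have hs1 : 1 ≤ √L := Real.one_le_sqrt.2 (by linarith)
  have hss : √L * √L = L := Real.mul_self_sqrt hL0.le
  have hρ1 : √L ≤ ⌈√L⌉₊ := Nat.le_ceil _
  have hρ2 : (⌈√L⌉₊ : ℝ) ≤ 2 * √L := by
    have := (Nat.ceil_lt_add_one (Real.sqrt_nonneg L)).le
    linarith
  have h1 : ((((z : ℝ) + 1) * (2 : ℕ)) ^ ⌈√L⌉₊) ≤ Real.exp (L / 8) := by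
    have h2 : ((z : ℝ) + 1) * (2 : ℕ) ≤ Real.exp ((E + 1) * Real.log L) := by
      have h3 : Real.exp ((E + 1) * Real.log L) = L ^ E * L := by
        rw [add_mul, one_mul, Real.exp_add, Real.exp_nat_mul, hLe]
      rw [h3]
      have h4 : 1 ≤ L ^ E := one_le_pow₀ (by linarith)
      push_cast
      nlinarith
    calc ((((z : ℝ) + 1) * (2 : ℕ)) ^ ⌈√L⌉₊) ≤ (Real.exp ((E + 1) * Real.log L)) ^ ⌈√L⌉₊ :=
          pow_le_pow_left₀ (by positivity) h2 _
      _ = Real.exp (⌈√L⌉₊ * ((E + 1) * Real.log L)) := (Real.exp_nat_mul _ _).symm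
      _ ≤ Real.exp (L / 8) := by
          apply Real.exp_le_exp.2
          have h5 := cd.c8
          have h6 : ((E : ℝ) + 1) * Real.log L ≤ √L / 16 := by linarith
          calc (⌈√L⌉₊ : ℝ) * ((E + 1) * Real.log L) ≤ (2 * √L) * (√L / 16) := by
                apply mul_le_mul hρ2 h6 (by positivity) (by positivity)
            _ = L / 8 := by
                have : (2 * √L) * (√L / 16) = (√L * √L) / 8 := by ring
                rw [this, hss]
  have h2 : (Vz z)⁻¹ ^ 2 * ((((z : ℝ) + 1) * (2 : ℕ)) ^ ⌈√L⌉₊) ≤ T / 8 := by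
    calc (Vz z)⁻¹ ^ 2 * ((((z : ℝ) + 1) * (2 : ℕ)) ^ ⌈√L⌉₊) ≤ L ^ 2 * Real.exp (L / 8) :=
          mul_le_mul hV2 h1 (by positivity) (by positivity)
      _ ≤ (Real.exp (L / 8) / 8) * Real.exp (L / 8) := by
          apply mul_le_mul_of_nonneg_right _ (Real.exp_pos _).le
          linarith [cd2.m3]
      _ = Real.exp (L / 8 + L / 8) / 8 := by rw [Real.exp_add]; ring
      _ = Real.exp (L / 4) / 8 := by congr 2; ring
      _ ≤ T / 8 := by linarith
  have h3 : (Vz z)⁻¹ ^ 2 * (2 * T * Real.exp (3 * ((2 : ℕ) * (1 + Real.log z)) - ⌈√L⌉₊)) ≤ T / 2 := by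
    have h4 : Real.log z ≤ E * Real.log L := by
      rw [← Real.log_pow]
      exact Real.log_le_log hz0 hz
    have h5 : Real.exp (3 * ((2 : ℕ) * (1 + Real.log z)) - ⌈√L⌉₊) ≤ Real.exp (-(2 * Real.log L + 2)) := by
      apply Real.exp_le_exp.2
      have h6 := cd.c8
      have h7 : 16 * ((E : ℝ) + 1) * Real.log L = 16 * (E * Real.log L) + 16 * Real.log L := by ring
      have h8 : (0 : ℝ) ≤ E * Real.log L := by positivity
      push_cast
      linarith
    have h6 : Real.exp (-(2 * Real.log L + 2)) ≤ (L ^ 2)⁻¹ / 4 := by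
      rw [Real.exp_neg, Real.exp_add, two_mul, Real.exp_add, hLe, mul_inv, ← pow_two, div_eq_mul_inv]
      apply mul_le_mul_of_nonneg_left _ (by positivity)
      apply inv_anti₀ (by norm_num)
      have e1 : Real.exp 2 = Real.exp 1 ^ 2 := by rw [← Real.exp_nat_mul]; norm_num
      rw [e1]
      have e2 := Real.exp_one_gt_d9
      nlinarith
    calc (Vz z)⁻¹ ^ 2 * (2 * T * Real.exp (3 * ((2 : ℕ) * (1 + Real.log z)) - ⌈√L⌉₊)) ≤ L ^ 2 * (2 * (T : ℝ) * ((L ^ 2)⁻¹ / 4)) := by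
          apply mul_le_mul hV2 _ (by positivity) (by positivity)
          apply mul_le_mul_of_nonneg_left (h5.trans h6) (by positivity)
      _ = (T : ℝ) / 2 := by field_simp; ring
  have hT0 : (0 : ℝ) ≤ T := by positivity
  rw [mul_add]
  linarith

/-- the numerical inequality for the two error terms -/
theorem err_part {B C R E U Bu : ℕ} {L : ℝ} (A G : ℕ) (hv : Cond B C (G * B + A + 6) R E U Bu L) (K : ℕ)
    (hKB : (K : ℝ) ≤ B * Real.log L) (T : ℕ) (hT : Real.exp (L / 2) ≤ T)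
    (s hA : ℝ) (hs : 0 ≤ s) (hhA : 0 ≤ hA) (hsA : s * hA ≤ Real.exp G) (ε : ℝ)
    (hε : ε = 1 / L ^ (4 * (G * B + A + 6) + 1)) :
    (2 * L) ^ K / √(T : ℝ) + s ^ (K - 1) * (hA ^ (K - 1) * √(√(16 * ε))) ≤ 2 / L ^ (A + 5) := by
  set v := G * B + A + 6 with hvd
  have hL1 := hv.l1
  have hL3 := hv.l0
  have hL0 : 0 < L := by linarith
  set ℓ := Real.log L with hℓ
  have hLe : Real.exp ℓ = L := Real.exp_log hL0
  have hT0 : (0 : ℝ) < T := lt_of_lt_of_le (Real.exp_pos _) hT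
  have hpow : ∀ n : ℕ, L ^ n = Real.exp (n * ℓ) := by
    intro n
    rw [Real.exp_nat_mul, hLe]
  have h1 : (2 * L) ^ K / √(T : ℝ) ≤ 1 / L ^ v := by
    have h2 : Real.exp (L / 4) ≤ √(T : ℝ) := by
      apply Real.le_sqrt_of_sq_le
      rw [← Real.exp_nat_mul]
      refine le_trans (le_of_eq ?_) hT
      congr 1
      push_cast
      ring
    have h3 : (2 * L) ^ K ≤ Real.exp (B * ℓ * (ℓ + 1)) := by
      have h4 : 2 * L ≤ Real.exp (ℓ + 1) := by
        rw [Real.exp_add, hLe]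
        have := Real.exp_one_gt_d9
        nlinarith
      calc (2 * L) ^ K ≤ (Real.exp (ℓ + 1)) ^ K := pow_le_pow_left₀ (by positivity) h4 K
        _ = Real.exp (K * (ℓ + 1)) := (Real.exp_nat_mul _ _).symm
        _ ≤ _ := by
            apply Real.exp_le_exp.2
            apply mul_le_mul_of_nonneg_right hKB (by linarith)
    rw [div_le_div_iff₀ (by positivity) (by positivity), one_mul, hpow v]
    calc (2 * L) ^ K * Real.exp (v * ℓ) ≤ Real.exp (B * ℓ * (ℓ + 1)) * Real.exp (v * ℓ) := by gcongr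
      _ = Real.exp (B * ℓ * (ℓ + 1) + v * ℓ) := (Real.exp_add _ _).symm
      _ ≤ Real.exp (L / 4) := by
          apply Real.exp_le_exp.2
          have h5 := hv.c10
          have h6 : (0 : ℝ) ≤ B * ℓ := by positivity
          have h7 : (0 : ℝ) ≤ v * ℓ := by positivity
          have h8 : (B : ℝ) * ℓ * (ℓ + 1) + v * ℓ ≤ 2 * ((B + v) * ℓ ^ 2) := by nlinarith
          linarith
      _ ≤ _ := h2
  have h3 : s ^ (K - 1) * hA ^ (K - 1) ≤ L ^ (G * B) := by
    rw [← mul_pow]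
    calc (s * hA) ^ (K - 1) ≤ (Real.exp G) ^ (K - 1) := pow_le_pow_left₀ (by positivity) hsA _
      _ ≤ (Real.exp G) ^ K := pow_le_pow_right₀ (Real.one_le_exp (by positivity)) (Nat.sub_le _ _)
      _ = Real.exp (K * G) := (Real.exp_nat_mul _ _).symm
      _ ≤ Real.exp (((G * B : ℕ) : ℝ) * ℓ) := by
          apply Real.exp_le_exp.2
          push_cast
          have : (0 : ℝ) ≤ G := by positivity
          nlinarith
      _ = L ^ (G * B) := (hpow _).symm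
  have h4 : √(√(16 * ε)) ≤ 1 / L ^ v := by
    apply Real.sqrt_le_iff.2
    refine ⟨by positivity, ?_⟩
    apply Real.sqrt_le_iff.2
    refine ⟨by positivity, ?_⟩
    have h5 : ((1 / L ^ v) ^ 2) ^ 2 = L / L ^ (4 * v + 1) := by
      have e : L ^ (4 * v + 1) = (L ^ v) ^ 4 * L := by ring
      rw [e]
      have : 0 < L ^ v := by positivity
      field_simp
    rw [h5, hε]
    have h6 : 16 * (1 / L ^ (4 * v + 1)) = 16 / L ^ (4 * v + 1) := by ring
    rw [h6]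
    exact div_le_div_of_nonneg_right (by linarith) (by positivity)
  have h2 : s ^ (K - 1) * (hA ^ (K - 1) * √(√(16 * ε))) ≤ L ^ (G * B) / L ^ v := by
    calc s ^ (K - 1) * (hA ^ (K - 1) * √(√(16 * ε))) = (s ^ (K - 1) * hA ^ (K - 1)) * √(√(16 * ε)) := by ring
      _ ≤ L ^ (G * B) * (1 / L ^ v) := by gcongr
      _ = _ := by ring
  have h5 : 1 / L ^ v ≤ 1 / L ^ (A + 5) := by
    apply one_div_le_one_div_of_le (by positivity)
    exact pow_le_pow_right₀ (by linarith) (by omega)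
  have h6 : L ^ (G * B) / L ^ v ≤ 1 / L ^ (A + 5) := by
    rw [div_le_div_iff₀ (by positivity) (by positivity), one_mul, ← pow_add]
    exact pow_le_pow_right₀ (by linarith) (by omega)
  have h7 : 2 / L ^ (A + 5) = 1 / L ^ (A + 5) + 1 / L ^ (A + 5) := by ring
  rw [h7]
  linarith

theorem prod_bound {K : ℕ} (H U : Fin K → ℕ) (W : ℕ) (m : ℝ) (hm : 0 < m) (hH : ∀ i, m ≤ H i) (hU : ∀ i, W * U i ≤ H i + W) (hKm : 2 * (K * (W : ℝ)) ≤ m) :
    ∏ i, ((W : ℝ) * U i) ≤ 2 * ∏ i, (H i : ℝ) := by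
  have h1 : ∀ i ∈ (univ : Finset (Fin K)), (W : ℝ) * U i ≤ H i * Real.exp (W / m) := by
    intro i _
    have h2 : (W : ℝ) * U i ≤ H i + W := by exact_mod_cast hU i
    have h3 := hH i
    have h4 : (1 : ℝ) + W / m ≤ Real.exp (W / m) := by
      have := Real.add_one_le_exp ((W : ℝ) / m)
      linarith
    have h5 : (W : ℝ) ≤ H i * (W / m) := by
      rw [mul_div_assoc', le_div_iff₀ hm]
      have : (0 : ℝ) ≤ W := by positivity
      nlinarith
    calc (W : ℝ) * U i ≤ H i + W := h2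
      _ ≤ H i * (1 + W / m) := by rw [mul_add, mul_one]; linarith
      _ ≤ _ := by gcongr
  have h2 : ∏ i, ((W : ℝ) * U i) ≤ ∏ i, ((H i : ℝ) * Real.exp (W / m)) := prod_le_prod (fun i _ => by positivity) h1
  refine h2.trans ?_
  rw [prod_mul_distrib, prod_const, card_univ, Fintype.card_fin, ← Real.exp_nat_mul, mul_comm]
  apply mul_le_mul_of_nonneg_right _ (prod_nonneg fun i _ => Nat.cast_nonneg _)
  have h3 : (K : ℝ) * (W / m) ≤ 1 / 2 := by
    rw [mul_div_assoc', div_le_iff₀ hm]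
    linarith
  calc Real.exp (K * (W / m)) ≤ Real.exp (1 / 2) := Real.exp_le_exp.2 h3
    _ ≤ 2 := by
        have h9 : Real.exp (1 / 2) * Real.exp (1 / 2) = Real.exp 1 := by rw [← Real.exp_add]; norm_num
        have h10 := Real.exp_one_lt_d9
        by_contra hcon
        push Not at hcon
        nlinarith

/-- collecting the factors -/
theorem final_alg' {K : ℕ} (hK : 1 ≤ K) (W T φ V s x y : ℝ) (U : Fin K → ℕ) (hW : 0 ≤ W) (hT : 0 ≤ T) (hV : 0 < V) (hV1 : V ≤ 1) (hs : 0 ≤ s) (hx : 0 ≤ x) (hy : 0 ≤ y)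
    (hφ : φ = W * V) :
    W * φ ^ K * (K * ((∏ i, (U i : ℝ)) * (T * (x + √((s ^ 2 * V⁻¹ ^ 2) ^ (K - 1)) * y)))) ≤
      K * ((W * T) * (∏ i, (W * U i)) * (x + s ^ (K - 1) * y)) := by
  have h1 : √((s ^ 2 * V⁻¹ ^ 2) ^ (K - 1)) = (s * V⁻¹) ^ (K - 1) := by
    have : (s ^ 2 * V⁻¹ ^ 2) ^ (K - 1) = ((s * V⁻¹) ^ (K - 1)) ^ 2 := by ring
    rw [this, Real.sqrt_sq (by positivity)]
  have h0 : ∏ i, (W * (U i : ℝ)) = W ^ K * ∏ i, (U i : ℝ) := by
    rw [prod_mul_distrib, prod_const, card_univ, Fintype.card_fin]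
  have hP : 0 ≤ ∏ i, (U i : ℝ) := prod_nonneg fun i _ => Nat.cast_nonneg _
  rw [h1, h0]
  obtain ⟨k, rfl⟩ : ∃ k, K = k + 1 := ⟨K - 1, by omega⟩
  rw [Nat.add_sub_cancel]
  set P := ∏ i, (U i : ℝ) with hPd
  have h2 : W * φ ^ (k + 1) * (((k + 1 : ℕ) : ℝ) * (P * (T * (x + (s * V⁻¹) ^ k * y)))) =
      ((k + 1 : ℕ) : ℝ) * ((W * T) * (W ^ (k + 1) * P) * (V ^ (k + 1) * x + V * (s ^ k * y))) := by
    rw [hφ, mul_pow, mul_pow, inv_pow]
    field_simp
    ring
  rw [h2]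
  apply mul_le_mul_of_nonneg_left _ (by positivity)
  apply mul_le_mul_of_nonneg_left _ (by positivity)
  apply add_le_add
  · apply mul_le_of_le_one_left hx
    exact pow_le_one₀ hV.le hV1
  · exact mul_le_of_le_one_left (by positivity) hV1

end

end Run7.h402.PY
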