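import Mathlib
import Pool.Agent.Run7.h402.PY.Y4

/-!
# The comparison with the model on average over short boxes: the main theorem
-/

set_option autoImplicit false

open Finset

namespace Run7.h402.PY

open Run7.h402.PX Run7.h402.PT Run7.h402.PV
open Pool.Agent.H807R2.Dav
open Pool.Agent.H373R2.T7
open Pool.Agent.N475.SP (dom)

noncomputable section

/-- the size of the arguments -/
theorem N_size {C R C1 : ℕ} {L : ℝ} (cd2 : Cond2 C R C1 L) (hL1 : 1000 ≤ L) (X W ca : ℕ) (hX : Real.exp L = X) (hW1 : 1 ≤ W)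
    (hW : (W : ℝ) ≤ L ^ (2 * R)) (hca1 : 1 ≤ ca) (hca2 : (ca : ℝ) ≤ 2 * L ^ C) :
    X ≤ W * (10 * ca * X + 1) ∧ ((W * (10 * ca * X + 1) : ℕ) : ℝ) ≤ 21 * L ^ (2 * R + C) * X ∧
      L ≤ Real.log ((W * (10 * ca * X + 1) : ℕ) : ℝ) ∧ Real.log ((W * (10 * ca * X + 1) : ℕ) : ℝ) ≤ 2 * L := by
  have hX0 : (0 : ℝ) < X := by rw [← hX]; exact Real.exp_pos _
  have hXn : 1 ≤ X := by exact_mod_cast hX0
  have h1 : X ≤ W * (10 * ca * X + 1) := by
    calc X = 1 * (1 * 1 * X + 0) := by ring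
      _ ≤ W * (10 * ca * X + 1) := by
          apply Nat.mul_le_mul hW1
          apply Nat.add_le_add _ (Nat.zero_le _)
          apply Nat.mul_le_mul_right
          omega
  have h2 : ((W * (10 * ca * X + 1) : ℕ) : ℝ) ≤ 21 * L ^ (2 * R + C) * X := by
    have hXr : (1 : ℝ) ≤ X := by exact_mod_cast hXn
    have hLC : 1 ≤ L ^ C := one_le_pow₀ (by linarith)
    push_cast
    calc (W : ℝ) * (10 * ca * X + 1) ≤ L ^ (2 * R) * (10 * (2 * L ^ C) * X + L ^ C * X) := by
          gcongr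
          nlinarith
      _ = 21 * L ^ (2 * R + C) * X := by rw [pow_add]; ring
  have h3 : (X : ℝ) ≤ ((W * (10 * ca * X + 1) : ℕ) : ℝ) := by exact_mod_cast h1
  have h4 : (0 : ℝ) < ((W * (10 * ca * X + 1) : ℕ) : ℝ) := by linarith
  refine ⟨h1, h2, ?_, ?_⟩
  · rw [Real.le_log_iff_exp_le h4, hX]
    exact h3
  · rw [Real.log_le_iff_le_exp h4]
    refine h2.trans ?_
    calc 21 * L ^ (2 * R + C) * (X : ℝ) ≤ Real.exp L * Real.exp L := by
          rw [← hX]
          exact mul_le_mul_of_nonneg_right cd2.m1 (Real.exp_pos _).le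
      _ = Real.exp (2 * L) := by rw [← Real.exp_add]; congr 1; ring

/-- the length of the windows -/
theorem U_size {C R C1 : ℕ} {L : ℝ} (cd2 : Cond2 C R C1 L) (hL1 : 1000 ≤ L) (X W H N : ℕ) (hX : Real.exp L = X) (hW1 : 1 ≤ W)
    (hW : (W : ℝ) ≤ L ^ (2 * R)) (hN : (N : ℝ) ≤ 21 * L ^ (2 * R + C) * X) (hNL : L ≤ Real.log N) (hNL2 : Real.log N ≤ 2 * L)
    (hH : (X : ℝ) ^ (1 / 3 : ℝ) * L ^ (2 * R + C + C1 + 2) ≤ H) :
    Real.exp (L / 4) ≤ ((H / W + 1 : ℕ) : ℝ) ∧ (N : ℝ) ^ (1 / 3 : ℝ) * Real.log N ^ C1 ≤ ((W * (H / W + 1) : ℕ) : ℝ) ∧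
      H ≤ W * (H / W + 1) ∧ W * (H / W + 1) ≤ H + W ∧ Real.exp (L / 4) ≤ H := by
  have hX0 : (0 : ℝ) < X := by rw [← hX]; exact Real.exp_pos _
  have hL0 : 0 < L := by linarith
  have h1 : H ≤ W * (H / W + 1) := (Nat.lt_mul_div_succ H hW1).le
  have h2 : W * (H / W + 1) ≤ H + W := by
    rw [mul_add, mul_one]
    have := Nat.mul_div_le H W
    omega
  have h1r : (H : ℝ) ≤ W * ((H / W + 1 : ℕ) : ℝ) := by exact_mod_cast h1
  have hX3 : (X : ℝ) ^ (1 / 3 : ℝ) = Real.exp (L / 3) := by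
    rw [← hX, ← Real.exp_mul]
    congr 1
    ring
  have he : Real.exp (L / 4) ≤ Real.exp (L / 3) := Real.exp_le_exp.2 (by linarith)
  have hWp : (0 : ℝ) < W := by exact_mod_cast hW1
  refine ⟨?_, ?_, h1, h2, ?_⟩
  · have h3 : Real.exp (L / 3) * W ≤ W * ((H / W + 1 : ℕ) : ℝ) := by
      refine le_trans ?_ h1r
      refine le_trans ?_ hH
      rw [hX3]
      apply mul_le_mul_of_nonneg_left _ (Real.exp_pos _).le
      refine hW.trans ?_
      exact pow_le_pow_right₀ (by linarith) (by omega)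
    rw [mul_comm] at h3
    exact he.trans (le_of_mul_le_mul_left h3 hWp)
  · have h3 : (N : ℝ) ^ (1 / 3 : ℝ) ≤ L ^ (2 * R + C + 1) * (X : ℝ) ^ (1 / 3 : ℝ) := by
      have h4 : (N : ℝ) ^ (1 / 3 : ℝ) ≤ (21 * L ^ (2 * R + C) * X) ^ (1 / 3 : ℝ) := Real.rpow_le_rpow (by positivity) hN (by norm_num)
      refine h4.trans ?_
      rw [Real.mul_rpow (by positivity) hX0.le]
      apply mul_le_mul_of_nonneg_right _ (by positivity)
      have h5 : 1 ≤ 21 * L ^ (2 * R + C) := by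
        have := one_le_pow₀ (n := 2 * R + C) (by linarith : (1 : ℝ) ≤ L)
        linarith
      calc (21 * L ^ (2 * R + C)) ^ (1 / 3 : ℝ) ≤ (21 * L ^ (2 * R + C)) ^ (1 : ℝ) := Real.rpow_le_rpow_of_exponent_le h5 (by norm_num)
        _ = 21 * L ^ (2 * R + C) := Real.rpow_one _
        _ ≤ L * L ^ (2 * R + C) := by
            apply mul_le_mul_of_nonneg_right _ (by positivity)
            linarith
        _ = L ^ (2 * R + C + 1) := by rw [pow_succ]; ring
    have h4 : Real.log N ^ C1 ≤ L * L ^ C1 := by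
      calc Real.log N ^ C1 ≤ (2 * L) ^ C1 := pow_le_pow_left₀ (by linarith) hNL2 C1
        _ = 2 ^ C1 * L ^ C1 := mul_pow _ _ _
        _ ≤ L * L ^ C1 := by
            apply mul_le_mul_of_nonneg_right _ (by positivity)
            exact cd2.m2
    have h5 : (H : ℝ) ≤ ((W * (H / W + 1) : ℕ) : ℝ) := by exact_mod_cast h1
    refine le_trans ?_ h5
    refine le_trans ?_ hH
    calc (N : ℝ) ^ (1 / 3 : ℝ) * Real.log N ^ C1 ≤ (L ^ (2 * R + C + 1) * (X : ℝ) ^ (1 / 3 : ℝ)) * (L * L ^ C1) := by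
          have hN0 : 0 ≤ Real.log N ^ C1 := by
            apply pow_nonneg
            linarith
          gcongr
      _ = (X : ℝ) ^ (1 / 3 : ℝ) * L ^ (2 * R + C + C1 + 2) := by
          generalize (X : ℝ) ^ (1 / 3 : ℝ) = x3
          ring
  · refine le_trans ?_ hH
    rw [hX3]
    have h3 : 1 ≤ L ^ (2 * R + C + C1 + 2) := one_le_pow₀ (by linarith)
    calc Real.exp (L / 4) ≤ Real.exp (L / 3) := he
      _ ≤ _ := le_mul_of_one_le_right (Real.exp_pos _).le h3

/-- **the comparison of the primes with the model in short boxes** -/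
theorem core' (hLaw : Law) (B C A : ℕ) : ∃ C' E0 : ℕ, ∀ E : ℕ, E0 ≤ E → ∃ X0 : ℕ, ∀ X : ℕ, X0 ≤ X → ∀ K : ℕ, 1 ≤ K →
    (K : ℝ) ≤ B * Real.log (Real.log X) →
    ∀ a b : Fin K → ℤ, (∀ i, a i ≠ 0) → (∀ i, ((a i).natAbs : ℝ) ≤ Real.log X ^ C) → (∀ i, ((b i).natAbs : ℝ) ≤ X * Real.log X ^ C) →
    ∀ H : Fin K → ℕ, (∀ i, (X : ℝ) ^ (1 / 3 : ℝ) * Real.log X ^ C' ≤ H i) → (∀ i, H i ≤ X) → ∀ c : ℕ → ℝ, (∀ n, |c n| ≤ 1) →
    ∑ m ∈ Fintype.piFinset (fun i : Fin K => range (H i)), |∑ n ∈ range X, c n *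
        (∏ i, fp (zL E (Real.log X)) ((a i * n + b i + (m i : ℕ)).toNat) - ∏ i, gp (zL E (Real.log X)) ((a i * n + b i + (m i : ℕ)).toNat))| ≤
      X * (∏ i, (H i : ℝ)) / Real.log X ^ A := by
  classical
  obtain ⟨CC, hCC, hpf⟩ := pair_f
  set R : ℕ := 8 * B + 1 with hR
  set s : ℝ := √(64 * CC + 2) with hs
  have hs0 : 0 ≤ s := Real.sqrt_nonneg _
  have hs2 : s ^ 2 = 64 * CC + 2 := Real.sq_sqrt (by positivity)
  set hA : ℝ := Real.exp (4 * C) with hhA
  have hA0 : 0 < hA := Real.exp_pos _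
  set G : ℕ := ⌈s * hA⌉₊ with hG
  have hGe : s * hA ≤ Real.exp G := by
    have h1 := Nat.le_ceil (s * hA)
    have h2 := Real.add_one_le_exp (G : ℝ)
    linarith
  set u : ℕ := 4 * (G * B + A + 6) + 1 with hu
  obtain ⟨C1, B₀, hlaw⟩ := hLaw (4 + 6 * R + C + u)
  refine ⟨2 * R + C + C1 + 2, max (B₀ + 1) (2 * R + 1), fun E hE => ?_⟩
  obtain ⟨N1, hlawE⟩ := hlaw E
  obtain ⟨N2, hVi⟩ := Vz_inv_small E
  obtain ⟨L0, hcond⟩ := cond_ev B C (G * B + A + 6) R E 0 B₀
    ((le_max_right _ _).trans hE) ((le_max_left _ _).trans hE)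
  obtain ⟨L0', hcond2⟩ := cond2_ev C R C1
  refine ⟨max (max N1 N2) (max 3 ⌈Real.exp (max L0 L0')⌉₊), fun X hX K hK hKB a b ha haC hbC H hH1 hH2 c hc => ?_⟩
  have hX1 : N1 ≤ X := le_trans (le_trans (le_max_left _ _) (le_max_left _ _)) hX
  have hX2 : N2 ≤ X := le_trans (le_trans (le_max_right _ _) (le_max_left _ _)) hX
  have hX3 : 3 ≤ X := le_trans (le_trans (le_max_left _ _) (le_max_right _ _)) hX
  have hX0 : (0 : ℝ) < X := by exact_mod_cast (by omega : 0 < X)
  have hXL : Real.exp (max L0 L0') ≤ X := (Nat.le_ceil _).trans (by exact_mod_cast le_trans (le_trans (le_max_right _ _) (le_max_right _ _)) hX)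
  set L : ℝ := Real.log X with hL
  have hLL0 : max L0 L0' ≤ L := by rwa [hL, Real.le_log_iff_exp_le hX0]
  have cd := hcond L ((le_max_left _ _).trans hLL0)
  have cd2 := hcond2 L ((le_max_right _ _).trans hLL0)
  have hL1 := cd.l1
  have hL0 : 0 < L := by linarith
  have hℓ3 := cd.l0
  have hXe : Real.exp L = X := by rw [hL, Real.exp_log hX0]
  set z : ℕ := zL E L with hz
  have hzle : (z : ℝ) ≤ L ^ E := Nat.floor_le (by positivity)
  have hzge : L ^ E - 1 ≤ z := by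
    have := Nat.lt_floor_add_one (L ^ E)
    have e : ((⌊L ^ E⌋₊ : ℕ) : ℝ) = z := rfl
    linarith
  obtain ⟨hwℓ, hw2, hw8, hWle, hzW, hwz⟩ := W_facts cd hR K z hKB hzge
  set w : ℕ := ⌈(R : ℝ) * Real.log L⌉₊ with hw
  set W : ℕ := Wm w with hW
  have hW1 : 1 ≤ W := Wm_pos w
  have hWr : (1 : ℝ) ≤ W := by exact_mod_cast hW1
  have hz1 : 1 ≤ z := le_trans hW1 hzW
  obtain ⟨hWT, hWT2, hTe, hWX⟩ := T_facts cd X W hXe hW1 hWle
  set T : ℕ := X / W + 1 with hT
  have hT1 : 1 ≤ T := Nat.le_add_left 1 _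
  have hTr : (1 : ℝ) ≤ T := by exact_mod_cast hT1
  set ca : ℕ := ⌈L ^ C⌉₊ with hca
  have hca1 : 1 ≤ ca := Nat.one_le_iff_ne_zero.2 (Nat.ceil_pos.2 (by positivity)).ne'
  have hcaa : ∀ i, (a i).natAbs ≤ ca := by
    intro i
    have h1 := (haC i).trans (Nat.le_ceil _)
    exact_mod_cast h1
  have hcab : ∀ i, (b i).natAbs ≤ ca * X := by
    intro i
    have h1 : ((b i).natAbs : ℝ) ≤ ca * X := by
      refine (hbC i).trans ?_
      rw [mul_comm]
      exact mul_le_mul_of_nonneg_right (Nat.le_ceil _) hX0.le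
    exact_mod_cast h1
  have hLC1 : 1 ≤ L ^ C := one_le_pow₀ (by linarith)
  have hca2 : (ca : ℝ) ≤ 2 * L ^ C := by
    have := (Nat.ceil_lt_add_one (by positivity : 0 ≤ L ^ C)).le
    linarith
  obtain ⟨f1, f2, f3, f4⟩ := N_size cd2 hL1 X W ca hXe hW1 hWle hca1 hca2
  set S : ℕ := 10 * ca * X with hS
  set N : ℕ := W * (S + 1) with hN
  have hVz : (Vz z)⁻¹ ≤ L := hVi X hX2 z hz1 hzle
  have hVz0 : 0 ≤ (Vz z)⁻¹ := inv_nonneg.2 (Vz_pos z).le
  set V : ℝ := Vz w with hV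
  have hV0 : 0 < V := Vz_pos w
  have hV1 : V ≤ 1 := Vz_le_one w
  have hVi1 : 1 ≤ V⁻¹ := (one_le_inv₀ hV0).2 hV1
  set M' : ℝ := s ^ 2 * V⁻¹ ^ 2 with hM'
  have hM'0 : 0 ≤ M' := by positivity
  set ε : ℝ := 1 / L ^ u with hε
  have hε0 : 0 < ε := by positivity
  set U : Fin K → ℕ := fun i => H i / W + 1 with hU
  have hUf := fun i => U_size cd2 hL1 X W (H i) N hXe hW1 hWle f2 f3 f4 (hH1 i)
  have hWS : ∀ r : ℕ, r < W → ∀ n : ℕ, n ≤ S → W * n + r ≤ N := by
    intro r hr n hn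
    rw [hN, mul_add, mul_one]
    have := Nat.mul_le_mul_left W hn
    omega
  -- the bounds for the weights
  have hfB : ∀ n : ℕ, n ≤ N → fp z n ≤ 2 * L := by
    intro n hn
    unfold fp
    split_ifs with h
    · refine le_trans ?_ f4
      apply Real.log_le_log (by exact_mod_cast h.1.pos)
      exact_mod_cast hn
    · linarith
  have hgB : ∀ n : ℕ, gp z n ≤ 2 * L := by
    intro n
    unfold gp lamz
    split_ifs
    · linarith
    · linarith
    · linarith
  have hDB : ∀ n ≤ N, |Dz z n| ≤ 2 * L := by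
    intro n hn
    have h1 := hfB n hn
    have h2 := hgB n
    have h3 := fp_nonneg z n
    have h4 := gp_nonneg z n
    unfold Dz
    rw [abs_le]
    constructor <;> linarith
  -- pair correlations
  have hPg : ∀ i, ∀ r : ℕ, Nat.Coprime W r → ∀ s0 δ : ℕ, 1 ≤ δ →
      ∑ n ∈ Icc 1 (U i), gp z (W * (s0 + n) + r) * gp z (W * (s0 + n + δ) + r) ≤ M' * U i * hh w δ ^ 2 := by
    intro i r hr s0 δ hδ
    have h1 := pair_g w z r s0 δ (U i) ⌈√L⌉₊ hr hδ hz1 hwz
    have h2 := pairg_part' cd cd2 (U i) z (hUf i).1 hz1 hzle hVz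
    have h3 := hh_one w δ
    refine h1.trans ?_
    have h4 : V⁻¹ ^ 2 * hh w δ * U i ≤ V⁻¹ ^ 2 * U i * hh w δ ^ 2 := by
      have : hh w δ ≤ hh w δ ^ 2 := by nlinarith
      calc V⁻¹ ^ 2 * hh w δ * U i = V⁻¹ ^ 2 * U i * hh w δ := by ring
        _ ≤ _ := by gcongr
    have h5 : (U i : ℝ) ≤ V⁻¹ ^ 2 * U i * hh w δ ^ 2 := by
      have h6 : 1 ≤ V⁻¹ ^ 2 := one_le_pow₀ hVi1
      have h7 : 1 ≤ hh w δ ^ 2 := one_le_pow₀ h3
      calc (U i : ℝ) = 1 * U i * 1 := by ring
        _ ≤ _ := by gcongr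
    have h6 : M' * U i * hh w δ ^ 2 = (64 * CC + 2) * (V⁻¹ ^ 2 * U i * hh w δ ^ 2) := by
      rw [hM', hs2]
      ring
    have h7 : 0 ≤ V⁻¹ ^ 2 * U i * hh w δ ^ 2 := by positivity
    have h8 : 0 ≤ CC * (V⁻¹ ^ 2 * U i * hh w δ ^ 2) := by positivity
    rw [h6]
    linarith
  have hPf : ∀ i, ∀ r : ℕ, r < W → Nat.Coprime W r → ∀ s0 δ : ℕ, 1 ≤ δ → s0 + U i + δ ≤ S →
      ∑ n ∈ Icc 1 (U i), fp z (W * (s0 + n) + r) * fp z (W * (s0 + n + δ) + r) ≤ M' * U i * hh w δ ^ 2 := by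
    intro i r hrW hr s0 δ hδ hs0
    have hU2 : 2 ≤ U i := by
      have h1 : (2 : ℝ) ≤ U i := by
        have h2 := (hUf i).1
        have h3 := Real.add_one_le_exp (L / 4)
        have h4 : ((H i / W + 1 : ℕ) : ℝ) = U i := rfl
        linarith
      exact_mod_cast h1
    have hU0 : (0 : ℝ) < U i := by exact_mod_cast (by omega : 0 < U i)
    have h1 := hpf w z r s0 δ (U i) N hr hδ hU2 (hWS r hrW _ hs0)
    refine h1.trans ?_
    have h2 : L / 4 ≤ Real.log (U i) := by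
      rw [Real.le_log_iff_exp_le hU0]
      exact (hUf i).1
    have h3 := hh_one w δ
    set h := hh w δ with hh0
    set lN := Real.log (N : ℝ) with hlN
    have h4 : lN ^ 2 ≤ 4 * L ^ 2 := by
      calc lN ^ 2 ≤ (2 * L) ^ 2 := pow_le_pow_left₀ (by linarith) f4 2
        _ = _ := by ring
    have h5 : (L / 4) ^ 2 ≤ Real.log (U i) ^ 2 := pow_le_pow_left₀ (by linarith) h2 2
    have h6 : CC * (V⁻¹ * h) ^ 2 * U i / Real.log (U i) ^ 2 ≤ CC * (V⁻¹ * h) ^ 2 * U i / (L / 4) ^ 2 :=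
      div_le_div_of_nonneg_left (by positivity) (by positivity) h5
    calc lN ^ 2 * (CC * (V⁻¹ * h) ^ 2 * U i / Real.log (U i) ^ 2) ≤ (4 * L ^ 2) * (CC * (V⁻¹ * h) ^ 2 * U i / (L / 4) ^ 2) := by
          apply mul_le_mul h4 h6 (by positivity) (by positivity)
      _ = 64 * CC * (V⁻¹ ^ 2 * U i * h ^ 2) := by
          field_simp
          ring
      _ ≤ (64 * CC + 2) * (V⁻¹ ^ 2 * U i * h ^ 2) := by
          apply mul_le_mul_of_nonneg_right _ (by positivity)
          linarith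
      _ = M' * U i * h ^ 2 := by
          rw [hM', hs2]
          ring
  -- the sizes in the line lemma
  have hSi : ∀ i (q : ℤ), q.natAbs ≤ (a i).natAbs + (b i).natAbs + 1 → 2 * (a i).natAbs * T + q.natAbs + U i ≤ S := by
    intro i q hq
    have e2 := hcaa i
    have e9 := hcab i
    have e10 : T ≤ 2 * X := by
      have : X / W ≤ X := Nat.div_le_self _ _
      omega
    have e11 : U i ≤ 2 * X := by
      have h1 : H i / W ≤ H i := Nat.div_le_self _ _
      have h2 := hH2 i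
      have h3 : U i = H i / W + 1 := rfl
      omega
    have e3 : (a i).natAbs * T ≤ ca * (2 * X) := Nat.mul_le_mul e2 e10
    have e4 : X ≤ ca * X := Nat.le_mul_of_pos_left _ hca1
    have e5 : ca ≤ ca * X := Nat.le_mul_of_pos_right _ (by omega)
    have e7 : 2 * (a i).natAbs * T = 2 * ((a i).natAbs * T) := by ring
    have e8 : S = 10 * (ca * X) := by rw [hS]; ring
    have e12 : ca * (2 * X) = 2 * (ca * X) := by ring
    rw [e7, e8]
    omega
  -- the box norm
  have hbox : ∀ i (r : ℕ) (q : ℤ), r < W → q.natAbs ≤ (a i).natAbs + (b i).natAbs + 1 →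
      ∑ t ∈ range T, ∑ t' ∈ range T, (∑ u ∈ range (U i), Dz z (W * (a i * t + u + q).toNat + r) * Dz z (W * (a i * t' + u + q).toNat + r)) ^ 2 ≤
      ε * (T * U i) ^ 2 := by
    intro i r q hr hq
    have hWU : W * U i ≤ N := by
      have h1 := (hUf i).2.2.2.1
      have h2 := hH2 i
      have h3 : W * (S + 1) = W * S + W := by ring
      have h4 : H i ≤ W * S := by
        have h5 : X ≤ S := by
          rw [hS]
          calc X = 1 * 1 * X := by ring
            _ ≤ 10 * ca * X := by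
                apply Nat.mul_le_mul_right
                omega
        calc H i ≤ X := h2
          _ ≤ S := h5
          _ ≤ W * S := Nat.le_mul_of_pos_left _ hW1
      have h5 : W * U i = W * (H i / W + 1) := rfl
      rw [hN, h3, h5]
      omega
    have hLz : (2 * L) ^ B₀ ≤ z := by linarith [cd.c3]
    have h0 := hlawE N (hX1.trans f1) z ((pow_le_pow_left₀ (by linarith) f4 B₀).trans hLz)
      (hzle.trans (pow_le_pow_left₀ hL0.le f3 E)) (W * U i) (hUf i).2.1 hWU (2 * L) (by linarith)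
    have h1 := box' T (U i) S N W (W * U i) z r (a i) q (ha i) hW1 hr hzW (hSi i q hq) (hWS r hr S le_rfl) le_rfl (Dz z)
      (fun n hn => Dz_zero z n hn) (2 * L) (by linarith) hDB _ h0
    refine h1.trans ?_
    -- numerical part
    have hU0 : (0 : ℝ) ≤ U i := Nat.cast_nonneg _
    have hXT : (X : ℝ) ≤ W * T := by exact_mod_cast hWT
    have hlogN : L ^ (4 + 6 * R + C + u) ≤ Real.log N ^ (4 + 6 * R + C + u) := pow_le_pow_left₀ hL0.le f3 _
    have hN0 : (0 : ℝ) ≤ N := Nat.cast_nonneg _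
    have k1 : (N : ℝ) * ((W * U i : ℕ) : ℝ) / Real.log N ^ (4 + 6 * R + C + u) ≤ (21 * L ^ (2 * R + C) * X) * (W * U i) / L ^ (4 + 6 * R + C + u) := by
      push_cast
      apply div_le_div₀ (by positivity) _ (by positivity) hlogN
      exact mul_le_mul_of_nonneg_right f2 (by positivity)
    have k2 : (21 * L ^ (2 * R + C) * (X : ℝ)) * (W * U i) / L ^ (4 + 6 * R + C + u) ≤ (21 * L ^ (2 * R + C) * (L ^ (2 * R) * T)) * (L ^ (2 * R) * U i) / L ^ (4 + 6 * R + C + u) := by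
      apply div_le_div_of_nonneg_right _ (by positivity)
      apply mul_le_mul _ _ (by positivity) (by positivity)
      · apply mul_le_mul_of_nonneg_left _ (by positivity)
        exact hXT.trans (mul_le_mul_of_nonneg_right hWle (by positivity))
      · exact mul_le_mul_of_nonneg_right hWle hU0
    have k3 : (21 * L ^ (2 * R + C) * (L ^ (2 * R) * T)) * (L ^ (2 * R) * U i) / L ^ (4 + 6 * R + C + u) = 21 * (T * U i) * (1 / (L ^ 4 * L ^ u)) := by
      have e : L ^ (4 + 6 * R + C + u) = L ^ 4 * L ^ (2 * R + C) * L ^ (2 * R) * L ^ (2 * R) * L ^ u := by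
        rw [← pow_add, ← pow_add, ← pow_add, ← pow_add]
        congr 1
        ring
      rw [e]
      field_simp
    have k4 : (N : ℝ) * ((W * U i : ℕ) : ℝ) / Real.log N ^ (4 + 6 * R + C + u) ≤ 21 * (T * U i) * (1 / (L ^ 4 * L ^ u)) := by
      rw [← k3]
      exact k1.trans k2
    calc (U i : ℝ) * (T * (2 * L) ^ 2 * (2 * L * ((N : ℝ) * ((W * U i : ℕ) : ℝ) / Real.log N ^ (4 + 6 * R + C + u)))) ≤
        (U i : ℝ) * (T * (2 * L) ^ 2 * (2 * L * (21 * (T * U i) * (1 / (L ^ 4 * L ^ u))))) := by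
          gcongr
      _ = (168 / L) * (1 / L ^ u) * (T * U i) ^ 2 := by
          field_simp
          ring
      _ ≤ 1 * (1 / L ^ u) * (T * U i) ^ 2 := by
          gcongr
          rw [div_le_one hL0]
          linarith
      _ = ε * (T * U i) ^ 2 := by rw [hε]; ring
  -- one residue class
  set y : ℝ := hA ^ (K - 1) * √(√(16 * ε)) with hy
  set x : ℝ := (2 * L) ^ K / √(T : ℝ) with hx
  set Bd : ℝ := K * ((∏ i, (U i : ℝ)) * (T * (x + √(M' ^ (K - 1)) * y))) with hBd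
  have hres := residue_sum' W T w z U rfl hwz hzW a b (fun n => if n < X then c n else 0) (by
      intro n
      split_ifs
      · exact hc n
      · simp) Bd (by
    intro q r c' hr hcop hq hc'
    have h1 := line_tuple' T S w U (by omega) hw8 a q ha (fun i => hSi i (q i) (hq i))
      (fun i n => fp z (W * n + r i)) (fun i n => gp z (W * n + r i)) (fun i n => fp_nonneg _ _) (fun i n => gp_nonneg _ _)
      (fun i => fp_zero z _ (by have := hr i; omega)) (fun i => gp_zero z _ (by have := hr i; omega)) (2 * L) (by linarith)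
      (fun i n hn => hfB _ (hWS (r i) (hr i) n hn)) (fun i n _ => hgB _) M' hA ε hM'0 hA0.le hε0.le
      (fun i s0 δ h1 h2 => hPf i (r i) (hr i) (hcop i) s0 δ h1 h2) (fun i s0 δ h1 _ => hPg i (r i) (hcop i) s0 δ h1)
      (fun j => hbox j (r j) (q j) (hr j) (hq j))
      (by
        intro i
        have h2 : 1 ≤ (a i).natAbs := Nat.one_le_iff_ne_zero.2 (Int.natAbs_ne_zero.2 (ha i))
        apply hh_small w (a i).natAbs C (Real.log L) (by linarith) hwℓ h2 _ hw2
        rw [← Real.log_pow]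
        exact Real.log_le_log (by exact_mod_cast h2) (haC i)) c' (fun t _ => hc' t)
    have h2 := line_final' (K := K) T hT1 (2 * L) M' hA ε (by linarith) hM'0 hA0.le hε0.le
    refine h1.trans ?_
    rw [hBd]
    apply mul_le_mul_of_nonneg_left _ (by positivity)
    apply mul_le_mul_of_nonneg_left h2
    exact prod_nonneg fun i _ => Nat.cast_nonneg _)
  have hxy := err_part A G cd K hKB T hTe s hA hs0 hA0.le hGe ε rfl
  have hprod := prod_bound H U W (Real.exp (L / 4)) (Real.exp_pos _) (fun i => (hUf i).2.2.2.2) (fun i => (hUf i).2.2.2.1) (by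
    have h1 : (K : ℝ) ≤ L := by
      have := cd.c12
      have : (0 : ℝ) ≤ B * Real.log L := by positivity
      linarith
    calc 2 * ((K : ℝ) * W) ≤ 2 * (L * L ^ (2 * R)) := by gcongr
      _ = 2 * L ^ (2 * R + 1) := by rw [pow_succ]; ring
      _ ≤ _ := cd2.m4)
  have hx0 : 0 ≤ x := by positivity
  have hy0 : 0 ≤ y := by positivity
  have halg := final_alg' hK (W : ℝ) T (Nat.totient W) V s x y U (by positivity) (by positivity) hV0 hV1 hs0 hx0 hy0 (tot_Wm w)
  have hPH : 0 ≤ ∏ i, (H i : ℝ) := prod_nonneg fun i _ => Nat.cast_nonneg _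
  have hPU : 0 ≤ ∏ i, ((W : ℝ) * U i) := prod_nonneg fun i _ => by positivity
  have hfin : K * ((W * T) * (∏ i, ((W : ℝ) * U i)) * (x + s ^ (K - 1) * y)) ≤ X * (∏ i, (H i : ℝ)) / L ^ A := by
    have h1 : (W : ℝ) * T ≤ 2 * X := by
      rw [hXe] at hWT2
      linarith
    have h2 : x + s ^ (K - 1) * y ≤ 2 / L ^ (A + 5) := by
      rw [hx, hy]
      exact hxy
    have hK6 : 6 * (K : ℝ) ≤ L := by
      have := cd.c12
      linarith
    calc K * ((W * T) * (∏ i, ((W : ℝ) * U i)) * (x + s ^ (K - 1) * y)) ≤ K * ((2 * X) * (2 * ∏ i, (H i : ℝ)) * (2 / L ^ (A + 5))) := by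
          gcongr
      _ = X * (∏ i, (H i : ℝ)) * ((8 * K) / L ^ (A + 5)) := by ring
      _ ≤ X * (∏ i, (H i : ℝ)) * (1 / L ^ A) := by
          apply mul_le_mul_of_nonneg_left _ (by positivity)
          rw [div_le_div_iff₀ (by positivity) (by positivity), one_mul, pow_add]
          have h5 : 1000 * L ≤ L ^ 5 := by
            calc 1000 * L ≤ L ^ 4 * L := by
                  gcongr
                  calc (1000 : ℝ) ≤ L := hL1
                    _ = L ^ 1 := (pow_one L).symm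
                    _ ≤ L ^ 4 := pow_le_pow_right₀ (by linarith) (by norm_num)
              _ = L ^ 5 := by ring
          have h6 : 0 < L ^ A := by positivity
          nlinarith
      _ = X * (∏ i, (H i : ℝ)) / L ^ A := by ring
  refine le_trans ?_ hfin
  refine le_trans ?_ halg
  refine le_trans ?_ hres
  -- restriction to the range
  have hsub : Fintype.piFinset (fun i : Fin K => range (H i)) ⊆ Fintype.piFinset (fun i : Fin K => range (W * U i)) := by
    intro m hm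
    rw [Fintype.mem_piFinset] at hm ⊢
    intro i
    have h1 := mem_range.1 (hm i)
    have h2 := (hUf i).2.2.1
    rw [mem_range]
    exact lt_of_lt_of_le h1 h2
  have hval : ∀ m : Fin K → ℕ, ∑ n ∈ range X, c n * (∏ i, fp z ((a i * n + b i + (m i : ℕ)).toNat) - ∏ i, gp z ((a i * n + b i + (m i : ℕ)).toNat)) =
      ∑ n ∈ range (W * T), (if n < X then c n else 0) * (∏ i, fp z ((a i * n + b i + (m i : ℕ)).toNat) - ∏ i, gp z ((a i * n + b i + (m i : ℕ)).toNat)) := by
    intro m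
    have e1 : range X = (range (W * T)).filter (fun n => n < X) := by
      ext n
      rw [mem_filter, mem_range, mem_range]
      omega
    rw [e1, sum_filter]
    apply sum_congr rfl
    intro n _
    split_ifs <;> simp
  rw [sum_congr rfl fun m _ => by rw [hval m]]
  exact sum_le_sum_of_subset_of_nonneg hsub fun m _ _ => abs_nonneg _

end

end Run7.h402.PY
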