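import Mathlib
import Pool.Agent.Run7.h794.MK.All
import Pool.Agent.Run7.h402.PY.Y0

/-!
# The one-shift law for all short shifts
-/

set_option autoImplicit false

open Finset

namespace Run7.h402.PY

open Run7.h402.PX Run7.h402.PT Run7.h402.PV
open Pool.Agent.H807R2.Dav
open Pool.Agent.H373R2.T7
open Pool.Agent.N475.SP (dom)

noncomputable section

/-- the weights in the mean -/
theorem l1_fg (N z : ℕ) (hN : 1 ≤ N) (hz : 1 ≤ z) :
    ∑ m ∈ Icc 1 N, |(ArithmeticFunction.vonMangoldt m - lamz z m) - Dz z m| ≤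
      2 * √(N : ℝ) * Real.log N + z * (Real.log z + (Vz z)⁻¹) := by
  have hV : 0 ≤ (Vz z)⁻¹ := inv_nonneg.2 (Vz_pos z).le
  have hlz : 0 ≤ Real.log z := Real.log_natCast_nonneg z
  set e1 : ℕ → ℝ := fun m => ArithmeticFunction.vonMangoldt m - Run7.h402.PT.Fp m with he1
  set e2 : ℕ → ℝ := fun m => (lamz z m - gp z m) - (Run7.h402.PT.Fp m - fp z m) with he2
  have hsplit : ∀ m ∈ Icc 1 N, |(ArithmeticFunction.vonMangoldt m - lamz z m) - Dz z m| ≤ e1 m + |e2 m| := by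
    intro m _
    have h0 : (ArithmeticFunction.vonMangoldt m - lamz z m) - Dz z m = e1 m - e2 m := by
      rw [he1, he2]
      unfold Dz
      ring
    rw [h0]
    refine (abs_sub _ _).trans ?_
    rw [abs_of_nonneg (lam_sub_Fp_nonneg m)]
  refine (sum_le_sum hsplit).trans ?_
  rw [sum_add_distrib]
  apply add_le_add (sum_lam_sub_Fp N hN)
  have h1 : ∀ m ∈ Icc 1 N, |e2 m| ≤ if m ≤ z then Real.log z + (Vz z)⁻¹ else 0 := by
    intro m hm
    rw [mem_Icc] at hm
    rw [he2]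
    simp only
    unfold gp Run7.h402.PT.Fp fp
    by_cases h : m ≤ z
    · rw [if_pos h, if_neg (by omega), if_neg (by omega : ¬ (m.Prime ∧ z < m)), sub_zero, sub_zero]
      have hlm : Real.log m ≤ Real.log z := Real.log_le_log (by exact_mod_cast hm.1) (by exact_mod_cast h)
      have h0 : 0 ≤ Real.log m := Real.log_natCast_nonneg m
      have hlam : 0 ≤ lamz z m ∧ lamz z m ≤ (Vz z)⁻¹ := by
        unfold lamz
        split_ifs
        · exact ⟨hV, le_rfl⟩
        · exact ⟨le_rfl, hV⟩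
      rw [abs_le]
      split_ifs <;> constructor <;> linarith [hlam.1, hlam.2]
    · rw [if_neg h, if_pos (by omega)]
      have : (m.Prime ∧ z < m) ↔ m.Prime := ⟨fun h => h.1, fun h2 => ⟨h2, by omega⟩⟩
      simp only [this]
      simp
  refine (sum_le_sum h1).trans ?_
  rw [← sum_filter, sum_const, nsmul_eq_mul]
  apply mul_le_mul_of_nonneg_right _ (by positivity)
  have : ((Icc 1 N).filter (fun m => m ≤ z)).card ≤ (Icc 1 z).card := by
    apply card_le_card
    intro m hm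
    rw [mem_filter, mem_Icc] at hm
    rw [mem_Icc]
    exact ⟨hm.1.1, hm.2⟩
  rw [Nat.card_Icc] at this
  exact_mod_cast (by omega : ((Icc 1 N).filter (fun m => m ≤ z)).card ≤ z)

/-- replacing the von Mangoldt function by the truncated weights -/
theorem one_v (N H z v : ℕ) (hN : 1 ≤ N) (hHN : H ≤ N) (hv : v ≤ 2 * H) (Kc : ℝ) (hK : 0 ≤ Kc) (G : ℕ → ℝ)
    (hG : ∀ n ∈ Icc 1 N, |G n| ≤ Kc) (Er : ℝ) (hEr : ∑ m ∈ Icc 1 (2 * N), |(ArithmeticFunction.vonMangoldt m - lamz z m) - Dz z m| ≤ Er) :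
    |∑ n ∈ Icc 1 N, G n * Dz z ((n : ℤ) + v - H).toNat| ≤
      |∑ n ∈ Icc 1 N, G n * (lamI ((n : ℤ) + (-(H : ℤ) + 1 * (v : ℕ))) - lamzI z ((n : ℤ) + (-(H : ℤ) + 1 * (v : ℕ))))| + Kc * Er := by
  set e : ℕ → ℝ := fun m => (ArithmeticFunction.vonMangoldt m - lamz z m) - Dz z m with he
  have h1 : ∀ n : ℕ, Dz z ((n : ℤ) + v - H).toNat = (lamI ((n : ℤ) + (-(H : ℤ) + 1 * (v : ℕ))) - lamzI z ((n : ℤ) + (-(H : ℤ) + 1 * (v : ℕ)))) -
      (if 1 ≤ (n : ℤ) + v - H then e ((n : ℤ) + v - H).toNat else 0) := by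
    intro n
    have e1 : (n : ℤ) + (-(H : ℤ) + 1 * (v : ℕ)) = (n : ℤ) + v - H := by ring
    rw [e1]
    unfold lamI lamzI
    split_ifs with h
    · rw [he]
      simp only
      ring
    · have : ((n : ℤ) + v - H).toNat = 0 := by omega
      rw [this, Dz_zero z 0 (by omega)]
      ring
  have h2 : ∑ n ∈ Icc 1 N, G n * Dz z ((n : ℤ) + v - H).toNat =
      ∑ n ∈ Icc 1 N, G n * (lamI ((n : ℤ) + (-(H : ℤ) + 1 * (v : ℕ))) - lamzI z ((n : ℤ) + (-(H : ℤ) + 1 * (v : ℕ)))) -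
      ∑ n ∈ Icc 1 N, G n * (if 1 ≤ (n : ℤ) + v - H then e ((n : ℤ) + v - H).toNat else 0) := by
    rw [← sum_sub_distrib]
    apply sum_congr rfl
    intro n _
    rw [h1 n]
    ring
  rw [h2]
  refine (abs_sub _ _).trans ?_
  apply add_le_add le_rfl
  refine (abs_sum_le_sum_abs _ _).trans ?_
  have h3 : ∀ n ∈ Icc 1 N, |G n * (if 1 ≤ (n : ℤ) + v - H then e ((n : ℤ) + v - H).toNat else 0)| ≤
      Kc * (if 1 ≤ (n : ℤ) + v - H then |e ((n : ℤ) + v - H).toNat| else 0) := by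
    intro n hn
    rw [abs_mul]
    apply mul_le_mul (hG n hn) _ (abs_nonneg _) hK
    split_ifs
    · exact le_rfl
    · rw [abs_zero]
  refine (sum_le_sum h3).trans ?_
  rw [← mul_sum]
  apply mul_le_mul_of_nonneg_left _ hK
  refine le_trans ?_ hEr
  rw [← sum_filter]
  have hinj : Set.InjOn (fun n : ℕ => ((n : ℤ) + v - H).toNat) ((Icc 1 N).filter (fun n : ℕ => 1 ≤ (n : ℤ) + v - H) : Finset ℕ) := by
    intro x hx y hy h
    rw [Finset.mem_coe, mem_filter] at hx hy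
    simp only at h
    omega
  rw [← sum_image (f := fun m => |e m|) hinj]
  apply sum_le_sum_of_subset_of_nonneg
  · intro m hm
    rw [mem_image] at hm
    obtain ⟨n, hn, rfl⟩ := hm
    rw [mem_filter, mem_Icc] at hn
    rw [mem_Icc]
    omega
  · intro m _ _
    exact abs_nonneg _

open Pool.Agent.Run7.h794.MK (Msh S_ONE one_all)
open Pool.Agent.N384.MQ (Sm)

/-- the uniform distribution on an interval -/
theorem msh_unif (V C Bq N q : ℕ) (hq : 1 ≤ q) (h1 : (N : ℝ) ^ (1 / 3 : ℝ) * Real.log N ^ C ≤ q) (h2 : q ≤ Bq * N) (hL : 0 < Real.log N) :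
    Msh V C Bq N q (fun _ => 1 / (q : ℝ)) := by
  have hq0 : (0 : ℝ) < q := by exact_mod_cast hq
  have hs : ∑ _v ∈ range q, (1 / (q : ℝ)) = 1 := by
    rw [sum_const, card_range, nsmul_eq_mul]
    field_simp
  refine ⟨h1, h2, fun v => by positivity, hs, ⟨hq, ?_, ?_⟩⟩
  · have e : ∑ v ∈ range q, (((1 / (q : ℝ) : ℝ)) : ℂ) = ((∑ _v ∈ range q, (1 / (q : ℝ)) : ℝ) : ℂ) := by push_cast; rfl
    simp only
    rw [e, hs]
    simp
  · intro h hh
    have e : ∑ v ∈ range q, ((fun _ => 1 / (q : ℝ) : ℕ → ℝ) v : ℂ) * ee ((h : ℝ) * v / q) =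
        ((1 / (q : ℝ) : ℝ) : ℂ) * ∑ v ∈ range q, ee ((v : ℝ) * ((h : ℝ) / q)) := by
      rw [mul_sum]
      apply sum_congr rfl
      intro v _
      simp only
      congr 2
      ring
    rw [e, orth q hq h, if_neg hh, mul_zero, norm_zero]
    positivity

/-- **the one-shift law for all shifts of size at most `H`** -/
theorem law : Law := by
  intro A
  obtain ⟨V, C, B₀, h⟩ := one_all 1 1 3 (A + 1) one_ne_zero
  refine ⟨C, B₀, fun E => ?_⟩
  obtain ⟨N₁, h1⟩ := h E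
  obtain ⟨N₂, hVi⟩ := Vz_inv_small E
  obtain ⟨L1, hd1⟩ := dom 16 (1 / 2) (A + 2) (by norm_num)
  obtain ⟨L2, hd2⟩ := dom 4 1 (E + E + A + 2) one_pos
  refine ⟨max (max N₁ N₂) (max ⌈Real.exp 12⌉₊ ⌈Real.exp (max L1 L2)⌉₊), fun N hN z hz1 hz2 H hH1 hHN Kc hKc G hG => ?_⟩
  have hN1 : N₁ ≤ N := le_trans (le_trans (le_max_left _ _) (le_max_left _ _)) hN
  have hN2 : N₂ ≤ N := le_trans (le_trans (le_max_right _ _) (le_max_left _ _)) hN
  have hN3 : ⌈Real.exp 12⌉₊ ≤ N := le_trans (le_trans (le_max_left _ _) (le_max_right _ _)) hN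
  have hN4 : ⌈Real.exp (max L1 L2)⌉₊ ≤ N := le_trans (le_trans (le_max_right _ _) (le_max_right _ _)) hN
  have hN3' : Real.exp 12 ≤ N := (Nat.le_ceil _).trans (by exact_mod_cast hN3)
  have hN4' : Real.exp (max L1 L2) ≤ N := (Nat.le_ceil _).trans (by exact_mod_cast hN4)
  have hN0 : (0 : ℝ) < N := lt_of_lt_of_le (Real.exp_pos _) hN3'
  have hNn : 1 ≤ N := by exact_mod_cast hN0
  obtain ⟨L, hLdef⟩ : ∃ L, L = Real.log (N : ℝ) := ⟨_, rfl⟩
  have hL12 : 12 ≤ L := by rw [hLdef, Real.le_log_iff_exp_le hN0]; exact hN3'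
  have hLL : max L1 L2 ≤ L := by rw [hLdef, Real.le_log_iff_exp_le hN0]; exact hN4'
  have g1 := hd1 L ((le_max_left _ _).trans hLL)
  have g2 := hd2 L ((le_max_right _ _).trans hLL)
  have hL0 : 0 < L := by linarith
  have hNe : Real.exp L = N := by rw [hLdef, Real.exp_log hN0]
  have hz1' : 1 ≤ z := by
    have h2 : (1 : ℝ) ≤ z := le_trans (one_le_pow₀ (by rw [← hLdef]; linarith)) hz1
    exact_mod_cast h2
  have hV := hVi N hN2 z hz1' hz2
  have hV0 : 0 ≤ (Vz z)⁻¹ := inv_nonneg.2 (Vz_pos z).le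
  set q : ℕ := 2 * H + 1 with hq
  have hH0 : (0 : ℝ) < H := by
    refine lt_of_lt_of_le ?_ hH1
    rw [← hLdef]
    positivity
  have hHn : 1 ≤ H := by exact_mod_cast hH0
  have hqr : (q : ℝ) ≤ 3 * H := by
    rw [hq]
    push_cast
    have : (1 : ℝ) ≤ H := by exact_mod_cast hHn
    linarith
  have hmsh : Msh V C 3 N q (fun _ => 1 / (q : ℝ)) := by
    apply msh_unif V C 3 N q (by omega) _ (by omega) (by rw [← hLdef]; exact hL0)
    refine hH1.trans ?_
    exact_mod_cast (by omega : H ≤ q)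
  have hlaw := h1 N hN1 z hz1 hz2 q (fun _ => 1 / (q : ℝ)) hmsh (-(H : ℤ)) (by
    rw [abs_neg, abs_of_nonneg (by positivity)]
    push_cast
    rw [one_mul]
    exact_mod_cast hHN) Kc hKc G hG
  set Er : ℝ := N / L ^ (A + 1) with hEr
  have hErb : ∑ m ∈ Icc 1 (2 * N), |(ArithmeticFunction.vonMangoldt m - lamz z m) - Dz z m| ≤ Er := by
    refine (l1_fg (2 * N) z (by omega) hz1').trans ?_
    have e1 : Real.log ((2 * N : ℕ) : ℝ) ≤ 2 * L := by
      push_cast
      rw [Real.log_mul (by norm_num) hN0.ne', ← hLdef]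
      have := Real.log_two_lt_d9
      linarith
    have e0 : 0 ≤ Real.log ((2 * N : ℕ) : ℝ) := Real.log_natCast_nonneg _
    have e2 : √((2 * N : ℕ) : ℝ) ≤ 2 * Real.exp (L / 2) := by
      rw [Real.sqrt_le_left (by positivity)]
      have : (2 * Real.exp (L / 2)) ^ 2 = 4 * Real.exp L := by
        rw [mul_pow, ← Real.exp_nat_mul]
        congr 1
        · norm_num
        · congr 1
          push_cast
          ring
      rw [this, hNe]
      push_cast
      linarith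
    have hLp : 0 < L ^ (A + 1) := by positivity
    have e3 : 2 * √((2 * N : ℕ) : ℝ) * Real.log ((2 * N : ℕ) : ℝ) ≤ N / L ^ (A + 1) / 2 := by
      rw [div_div, le_div_iff₀ (by positivity)]
      have e4 : 16 * L ^ (A + 2) ≤ Real.exp (L / 2) := by
        have := g1
        rwa [show 1 / 2 * L = L / 2 by ring] at this
      calc 2 * √((2 * N : ℕ) : ℝ) * Real.log ((2 * N : ℕ) : ℝ) * (L ^ (A + 1) * 2) ≤
          2 * (2 * Real.exp (L / 2)) * (2 * L) * (L ^ (A + 1) * 2) := by gcongr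
        _ = (16 * L ^ (A + 2)) * Real.exp (L / 2) := by ring
        _ ≤ Real.exp (L / 2) * Real.exp (L / 2) := by gcongr
        _ = N := by rw [← Real.exp_add, ← hNe]; congr 1; ring
    have hLE : 1 ≤ L ^ E := one_le_pow₀ (by linarith)
    have hz2' : (z : ℝ) ≤ L ^ E := by rw [hLdef]; exact hz2
    have hzr : (0 : ℝ) < z := by exact_mod_cast hz1'
    have e5 : Real.log z ≤ L ^ E := by
      have := Real.log_le_sub_one_of_pos hzr
      linarith
    have e6 : (z : ℝ) * (Real.log z + (Vz z)⁻¹) ≤ N / L ^ (A + 1) / 2 := by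
      rw [div_div, le_div_iff₀ (by positivity)]
      have hlz0 : 0 ≤ Real.log z := Real.log_natCast_nonneg z
      have e7 : Real.log z + (Vz z)⁻¹ ≤ 2 * (L ^ E * L) := by
        have h3 : (Vz z)⁻¹ ≤ L := by rw [hLdef]; exact hV
        have h4 : L ≤ L ^ E * L := le_mul_of_one_le_left hL0.le hLE
        have h5 : L ^ E ≤ L ^ E * L := le_mul_of_one_le_right (by positivity) (by linarith)
        linarith
      calc (z : ℝ) * (Real.log z + (Vz z)⁻¹) * (L ^ (A + 1) * 2) ≤ L ^ E * (2 * (L ^ E * L)) * (L ^ (A + 1) * 2) := by gcongr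
        _ = 4 * L ^ (E + E + A + 2) := by ring
        _ ≤ Real.exp (1 * L) := g2
        _ = N := by rw [one_mul, hNe]
    rw [hEr]
    linarith
  have hv : ∀ v ∈ range q, |∑ n ∈ Icc 1 N, G n * Dz z ((n : ℤ) + v - H).toNat| ≤
      |∑ n ∈ Icc 1 N, G n * (lamI ((n : ℤ) + (-(H : ℤ) + 1 * (v : ℕ))) - lamzI z ((n : ℤ) + (-(H : ℤ) + 1 * (v : ℕ))))| + Kc * Er := by
    intro v hv
    rw [mem_range] at hv
    exact one_v N H z v hNn hHN (by omega) Kc hKc.le G hG Er hErb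
  refine (sum_le_sum hv).trans ?_
  rw [sum_add_distrib, sum_const, card_range, nsmul_eq_mul]
  have hq0 : (0 : ℝ) < q := by exact_mod_cast (by omega : 0 < q)
  have hlaw2 : ∑ v ∈ range q, |∑ n ∈ Icc 1 N, G n * (lamI ((n : ℤ) + (-(H : ℤ) + 1 * (v : ℕ))) - lamzI z ((n : ℤ) + (-(H : ℤ) + 1 * (v : ℕ))))| ≤
      q * (Kc * (N / L ^ (A + 1))) := by
    rw [← mul_sum, ← hLdef] at hlaw
    have h3 := mul_le_mul_of_nonneg_left hlaw hq0.le
    rwa [← mul_assoc, mul_one_div_cancel hq0.ne', one_mul] at h3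
  have hfin : q * (Kc * (N / L ^ (A + 1))) + q * (Kc * Er) ≤ Kc * (N * H / L ^ A) := by
    rw [hEr]
    have e1 : q * (Kc * (N / L ^ (A + 1))) + q * (Kc * (N / L ^ (A + 1))) = Kc * (N / L ^ (A + 1)) * (2 * q) := by ring
    have e2 : Kc * (N * H / L ^ A) = Kc * (N / L ^ (A + 1)) * (H * L) := by
      rw [pow_succ]
      field_simp
    rw [e1, e2]
    apply mul_le_mul_of_nonneg_left _ (by positivity)
    nlinarith
  rw [← hLdef]
  linarith

end

end Run7.h402.PY
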